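import Pool.Agent.TH262.RX.Est

/-!
# The ratios for every length
-/

set_option autoImplicit false
set_option linter.unusedVariables false

namespace Pool.Agent.TH262.RX

open Finset Pool.Agent.H976R2
open TH795.EP (a c)

lemma a_le_c (m : ℕ) (x y : ℤ) : (TH795.EP.a m x y : ℝ) ≤ TH795.EP.c m := by
  exact_mod_cast (by
    unfold TH795.EP.a TH795.EP.c
    apply Finset.card_le_card
    intro w hw
    rw [TH795.EP.mem_fs] at hw ⊢
    exact ⟨hw.1.1, hw.2⟩ : TH795.EP.a m x y ≤ TH795.EP.c m)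

lemma one_le_c (m : ℕ) : (1 : ℝ) ≤ TH795.EP.c m := by
  have h := c_lower m
  have h1 : (1 : ℝ) ≤ H981.mu ^ m := one_le_pow₀ H981.one_le_mu
  linarith

/-- **The ratio of the numbers of walks to a point, and of the probabilities.** -/
theorem ratios : ∃ κ : ℝ, 0 < κ ∧ κ ≤ 1 / 4 ∧ ∃ K : ℝ, 0 ≤ K ∧ ∀ n : ℕ, ∀ x y : ℤ,
    (x, y) ≠ (0, 0) → (x + y - n) % 2 = 0 → ∀ r : ℝ, 0 ≤ r → r ^ 2 = (x : ℝ) ^ 2 + (y : ℝ) ^ 2 →
    r ≤ κ * n → 0 < (TH795.EP.a n x y : ℝ) ∧
      |(TH795.EP.a (n + 2) x y : ℝ) / TH795.EP.a n x y - H981.mu ^ 2| ≤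
        K * Real.sqrt (EE' n r / n) ∧
      |((TH795.EP.a (n + 2) x y : ℝ) / TH795.EP.c (n + 2)) / ((TH795.EP.a n x y : ℝ) / TH795.EP.c n)
        - 1| ≤ K * Real.sqrt (EE' n r / n) := by
  obtain ⟨κ, hκ, hκ4, C, hC, n0, h0⟩ := pt
  obtain ⟨C', hC', n1, h1⟩ := tot
  obtain ⟨n2, hn2, h2⟩ := log_o (1 / (4 * (C' + 1))) (by positivity)
  obtain ⟨K1, hK1, hlow⟩ := SawE.gauss_words
  obtain ⟨N, hN⟩ : ∃ N, N = n0 + n1 + n2 := ⟨_, rfl⟩
  -- a bound for the small lengths
  obtain ⟨B, hB⟩ : ∃ B : ℝ, B = ∑ m ∈ Finset.range (N + 1),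
    ((TH795.EP.c (m + 2) : ℝ) + H981.mu ^ 2 + TH795.EP.c (m + 2) * TH795.EP.c m + 1) := ⟨_, rfl⟩
  have hterm : ∀ m : ℕ, 0 ≤ (TH795.EP.c (m + 2) : ℝ) + H981.mu ^ 2 +
      TH795.EP.c (m + 2) * TH795.EP.c m + 1 := fun m => by positivity
  have hBm : ∀ m : ℕ, m ≤ N → (TH795.EP.c (m + 2) : ℝ) + H981.mu ^ 2 +
      TH795.EP.c (m + 2) * TH795.EP.c m + 1 ≤ B := by
    intro m hm
    rw [hB]
    exact Finset.single_le_sum (f := fun m : ℕ => (TH795.EP.c (m + 2) : ℝ) + H981.mu ^ 2 +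
      TH795.EP.c (m + 2) * TH795.EP.c m + 1) (fun m _ => hterm m)
      (Finset.mem_range.2 (by omega))
  have hB0 : 0 ≤ B := (hterm 0).trans (hBm 0 (by omega))
  have hmu0 := H981.mu_pos
  refine ⟨κ, hκ, hκ4, H981.mu ^ 2 * Real.sqrt C + 2 * (Real.sqrt C + 8 * Real.sqrt C') +
    B * Real.sqrt (N + 1), by positivity, ?_⟩
  intro n x y hxy hpar r hr0 hr2 hrn
  have hr1 : 1 ≤ r := by
    by_contra hcon
    push Not at hcon
    have h1 : (x : ℝ) ^ 2 + (y : ℝ) ^ 2 < 1 := by rw [← hr2]; nlinarith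
    have h2 : x ^ 2 + y ^ 2 < 1 := by exact_mod_cast h1
    have h3 : x = 0 := by nlinarith [sq_nonneg x, sq_nonneg y]
    have h4 : y = 0 := by nlinarith [sq_nonneg x, sq_nonneg y]
    exact hxy (by rw [h3, h4])
  have hr4 : r ≤ n / 4 := by
    have : r ≤ 1 / 4 * n := hrn.trans (by gcongr)
    linarith
  have hnR : (4 : ℝ) ≤ n := by linarith
  have hn4 : 4 ≤ n := by exact_mod_cast hnR
  have hn0 : (0 : ℝ) < n := by linarith
  have hrn' : r ≤ n := by linarith
  have hE1 := one_le_EE hr1 hrn'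
  obtain ⟨s, hs⟩ : ∃ s, s = Real.sqrt (EE' n r / n) := ⟨_, rfl⟩
  have hs0 : 0 ≤ s := by rw [hs]; positivity
  rw [← hs]
  have hc1 := one_le_c n
  have hc2 := one_le_c (n + 2)
  have hCs : 0 ≤ Real.sqrt C * s := by positivity
  have hCs' : 0 ≤ Real.sqrt C' * s := by positivity
  have hBs : 0 ≤ B * Real.sqrt (N + 1) * s := by positivity
  have hmuCs : 0 ≤ H981.mu ^ 2 * Real.sqrt C * s := by positivity
  rcases Nat.lt_or_ge N n with hlarge | hsmall
  · -- large lengths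
    obtain ⟨ha, hA⟩ := h0 n (by omega) x y hxy hpar r hr0 hr2 hrn
    have hT := h1 n (by omega)
    have hlog := h2 n (by omega)
    obtain ⟨A, hAdef⟩ : ∃ A, A = (TH795.EP.a (n + 2) x y : ℝ) /
      (H981.mu ^ 2 * TH795.EP.a n x y) := ⟨_, rfl⟩
    obtain ⟨T, hTdef⟩ : ∃ T, T = (TH795.EP.c (n + 2) : ℝ) / (H981.mu ^ 2 * TH795.EP.c n) := ⟨_, rfl⟩
    rw [← hAdef] at hA
    rw [← hTdef] at hT
    have hA' : |A - 1| ≤ Real.sqrt C * s := by rw [hs, ← Real.sqrt_mul hC]; exact hA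
    have hlogE : Real.log n ^ 3 ≤ 64 * EE' n r := SawE.log_gauss (by omega) hr1 hrn'
    have hT' : |T - 1| ≤ 8 * Real.sqrt C' * s := by
      refine hT.trans ?_
      have e : 8 * Real.sqrt C' * s = Real.sqrt (C' * (64 * EE' n r / n)) := by
        rw [hs, show C' * (64 * EE' n r / n) = 8 ^ 2 * (C' * (EE' n r / n)) by ring,
          Real.sqrt_mul (by norm_num), Real.sqrt_mul hC', Real.sqrt_sq (by norm_num)]
        ring
      rw [e]
      apply Real.sqrt_le_sqrt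
      gcongr
    have hTh : |T - 1| ≤ 1 / 2 := by
      refine hT.trans ?_
      rw [show (1 / 2 : ℝ) = Real.sqrt (1 / 4) by
        rw [show (1 / 4 : ℝ) = (1 / 2) ^ 2 by norm_num, Real.sqrt_sq (by norm_num)]]
      apply Real.sqrt_le_sqrt
      have h3 : Real.log n ^ 3 ≤ Real.log (2 + n) ^ 3 := by
        apply pow_le_pow_left₀ (Real.log_nonneg (by linarith))
        apply Real.log_le_log (by linarith) (by linarith)
      rw [← mul_div_assoc, div_le_iff₀ hn0]
      calc C' * Real.log n ^ 3 ≤ (C' + 1) * (1 / (4 * (C' + 1)) * n) := by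
            apply mul_le_mul (by linarith) (h3.trans hlog)
              (pow_nonneg (Real.log_nonneg (by linarith)) 3) (by positivity)
        _ = 1 / 4 * n := by field_simp
    have hT2 : 1 / 2 ≤ T := by have := (abs_le.1 hTh).1; linarith
    refine ⟨ha, ?_, ?_⟩
    · have e : (TH795.EP.a (n + 2) x y : ℝ) / TH795.EP.a n x y - H981.mu ^ 2 =
          H981.mu ^ 2 * (A - 1) := by
        rw [hAdef]; field_simp
      rw [e, abs_mul, abs_of_pos (by positivity : 0 < H981.mu ^ 2)]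
      have e6 : (H981.mu ^ 2 * Real.sqrt C + 2 * (Real.sqrt C + 8 * Real.sqrt C') +
          B * Real.sqrt (N + 1)) * s = H981.mu ^ 2 * Real.sqrt C * s +
          2 * (Real.sqrt C * s) + 16 * (Real.sqrt C' * s) + B * Real.sqrt (N + 1) * s := by ring
      calc H981.mu ^ 2 * |A - 1| ≤ H981.mu ^ 2 * (Real.sqrt C * s) := by gcongr
        _ = H981.mu ^ 2 * Real.sqrt C * s := by ring
        _ ≤ _ := by rw [e6]; linarith
    · have e : ((TH795.EP.a (n + 2) x y : ℝ) / TH795.EP.c (n + 2)) /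
          ((TH795.EP.a n x y : ℝ) / TH795.EP.c n) - 1 = (A - T) / T := by
        rw [hAdef, hTdef]; field_simp
      rw [e, abs_div, abs_of_pos (by linarith : 0 < T), div_le_iff₀ (by linarith)]
      have h3 : |A - T| ≤ Real.sqrt C * s + 8 * Real.sqrt C' * s := by
        calc |A - T| = |(A - 1) - (T - 1)| := by congr 1; ring
          _ ≤ |A - 1| + |T - 1| := abs_sub _ _
          _ ≤ _ := by linarith
      have h4 : 0 ≤ (H981.mu ^ 2 * Real.sqrt C + 2 * (Real.sqrt C + 8 * Real.sqrt C') +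
        B * Real.sqrt (N + 1)) * s := by positivity
      have e6 : (H981.mu ^ 2 * Real.sqrt C + 2 * (Real.sqrt C + 8 * Real.sqrt C') +
          B * Real.sqrt (N + 1)) * s * (1 / 2) = (H981.mu ^ 2 * Real.sqrt C * s) / 2 +
          Real.sqrt C * s + 8 * Real.sqrt C' * s + (B * Real.sqrt (N + 1) * s) / 2 := by ring
      calc |A - T| ≤ Real.sqrt C * s + 8 * Real.sqrt C' * s := h3
        _ ≤ (H981.mu ^ 2 * Real.sqrt C + 2 * (Real.sqrt C + 8 * Real.sqrt C') +
          B * Real.sqrt (N + 1)) * s * (1 / 2) := by rw [e6]; linarith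
        _ ≤ _ := by gcongr
  · -- small lengths
    have hNR : (n : ℝ) ≤ N := by exact_mod_cast hsmall
    have hsN : 1 ≤ Real.sqrt (N + 1) * s := by
      rw [hs, ← Real.sqrt_mul (by positivity), Real.one_le_sqrt, mul_div_assoc',
        le_div_iff₀ hn0]
      nlinarith
    have hsum : ((|x| + |y| : ℤ) : ℝ) ≤ n := by
      have h1 : ((|x| + |y| : ℤ) : ℝ) ^ 2 ≤ (2 * r) ^ 2 := by
        push_cast
        have e1 := sq_abs (x : ℝ)
        have e2 := sq_abs (y : ℝ)
        nlinarith [sq_nonneg (|(x : ℝ)| - |(y : ℝ)|), sq_nonneg r]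
      have h2 : ((|x| + |y| : ℤ) : ℝ) ≤ 2 * r := by
        apply le_of_sq_le_sq h1 (by linarith) |>.trans_eq rfl
      linarith
    have ha : 0 < (TH795.EP.a n x y : ℝ) := by
      have h3 := hlow n (by omega) x y hxy hpar (by exact_mod_cast hsum) r hr0 hr2
      exact lt_of_lt_of_le (by positivity) h3
    have ha1 : (1 : ℝ) ≤ TH795.EP.a n x y := by
      have : 0 < TH795.EP.a n x y := by exact_mod_cast ha
      exact_mod_cast this
    have hle := a_le_c (n + 2) x y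
    have hbound := hBm n hsmall
    have hmu2 : 0 ≤ H981.mu ^ 2 := by positivity
    have hcc : 0 ≤ (TH795.EP.c (n + 2) : ℝ) * TH795.EP.c n := by positivity
    have ha2 : (0 : ℝ) ≤ TH795.EP.a (n + 2) x y := Nat.cast_nonneg _
    have hBK : B ≤ (H981.mu ^ 2 * Real.sqrt C + 2 * (Real.sqrt C + 8 * Real.sqrt C') +
        B * Real.sqrt (N + 1)) * s := by
      have h3 : B * 1 ≤ B * (Real.sqrt (N + 1) * s) := by gcongr
      have e6 : (H981.mu ^ 2 * Real.sqrt C + 2 * (Real.sqrt C + 8 * Real.sqrt C') +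
          B * Real.sqrt (N + 1)) * s = H981.mu ^ 2 * Real.sqrt C * s +
          2 * (Real.sqrt C * s) + 16 * (Real.sqrt C' * s) + B * (Real.sqrt (N + 1) * s) := by ring
      rw [e6]
      linarith
    refine ⟨ha, le_trans ?_ hBK, le_trans ?_ hBK⟩
    · have h3 : (TH795.EP.a (n + 2) x y : ℝ) / TH795.EP.a n x y ≤ TH795.EP.c (n + 2) :=
        (div_le_self ha2 ha1).trans hle
      have h4 : 0 ≤ (TH795.EP.a (n + 2) x y : ℝ) / TH795.EP.a n x y := by positivity
      rw [abs_le]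
      constructor <;> linarith
    · have e : ((TH795.EP.a (n + 2) x y : ℝ) / TH795.EP.c (n + 2)) /
          ((TH795.EP.a n x y : ℝ) / TH795.EP.c n) =
          (TH795.EP.a (n + 2) x y : ℝ) * TH795.EP.c n /
            (TH795.EP.c (n + 2) * TH795.EP.a n x y) := by
        field_simp
      have h3 : (TH795.EP.a (n + 2) x y : ℝ) * TH795.EP.c n /
            (TH795.EP.c (n + 2) * TH795.EP.a n x y) ≤ TH795.EP.c (n + 2) * TH795.EP.c n := by
        refine (div_le_self (by positivity) ?_).trans ?_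
        · exact one_le_mul_of_one_le_of_one_le hc2 ha1
        · exact mul_le_mul_of_nonneg_right hle (Nat.cast_nonneg _)
      have h4 : 0 ≤ (TH795.EP.a (n + 2) x y : ℝ) * TH795.EP.c n /
            (TH795.EP.c (n + 2) * TH795.EP.a n x y) := by positivity
      rw [e, abs_le]
      constructor <;> linarith

end Pool.Agent.TH262.RX
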