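import Pool.Agent.TH262.RX.Pt

/-!
# The ratio of the numbers of walks to a point, with the rate
-/

set_option autoImplicit false
set_option linter.unusedVariables false

namespace Pool.Agent.TH262.RX

open Finset Pool.Agent.H976R2

/-- the error term -/
noncomputable def EE' (n : ℕ) (r : ℝ) : ℝ := (1 + r ^ 2 / n) * Real.log (2 + n / r) ^ 3

lemma one_le_log_two_add {z : ℝ} (hz : 1 ≤ z) : 1 ≤ Real.log (2 + z) := by
  have h1 : Real.log 3 ≤ Real.log (2 + z) := Real.log_le_log (by norm_num) (by linarith)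
  have h2 : 1 ≤ Real.log 3 := by
    rw [Real.le_log_iff_exp_le (by norm_num)]
    linarith [Real.exp_one_lt_d9]
  linarith

lemma one_le_EE {n : ℕ} {r : ℝ} (hr : 1 ≤ r) (hrn : r ≤ n) : 1 ≤ EE' n r := by
  have hr0 : 0 < r := by linarith
  have hn0 : (0 : ℝ) < n := by linarith
  have h1 : 1 ≤ (n : ℝ) / r := by rw [le_div_iff₀ hr0, one_mul]; exact hrn
  have h2 := one_le_log_two_add h1
  have h3 : 1 ≤ Real.log (2 + n / r) ^ 3 := one_le_pow₀ h2
  have h4 : 0 ≤ r ^ 2 / n := by positivity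
  unfold EE'
  nlinarith

/-- `log (2 + z)^3 ≤ 81 z` for `z ≥ 1` -/
lemma log_cube {z : ℝ} (hz : 1 ≤ z) : Real.log (2 + z) ^ 3 ≤ 81 * z := by
  have h0 : (0 : ℝ) ≤ 2 + z := by linarith
  have hl := one_le_log_two_add hz
  obtain ⟨t, ht⟩ : ∃ t, t = (2 + z) ^ (1 / 3 : ℝ) := ⟨_, rfl⟩
  have ht0 : 0 ≤ t := by rw [ht]; positivity
  have ht3 : t ^ 3 = 2 + z := by
    rw [ht, ← Real.rpow_natCast, ← Real.rpow_mul h0]
    norm_num
  have h1 : Real.log (2 + z) ≤ 3 * t := by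
    have h2 := Real.log_le_sub_one_of_pos (show 0 < t by
      rcases ht0.eq_or_lt with h | h
      · rw [← h] at ht3; norm_num at ht3; linarith
      · exact h)
    rw [← ht3, Real.log_pow]
    push_cast
    linarith
  calc Real.log (2 + z) ^ 3 ≤ (3 * t) ^ 3 := by
        apply pow_le_pow_left₀ (by linarith) h1
    _ = 27 * (2 + z) := by rw [mul_pow, ht3]; norm_num
    _ ≤ 81 * z := by linarith

/-- the error term away from the smallest scales -/
lemma EE_le {n : ℕ} {r : ℝ} (hr : 1 ≤ r) (hrn : r ≤ n) :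
    EE' n r ≤ Real.log (2 + n) ^ 3 + 81 * r := by
  have hr0 : 0 < r := by linarith
  have hn0 : (0 : ℝ) < n := by linarith
  have h1 : 1 ≤ (n : ℝ) / r := by rw [le_div_iff₀ hr0, one_mul]; exact hrn
  have h2 := one_le_log_two_add h1
  have h3 : Real.log (2 + n / r) ^ 3 ≤ Real.log (2 + n) ^ 3 := by
    apply pow_le_pow_left₀ (by linarith)
    apply Real.log_le_log (by linarith)
    have : (n : ℝ) / r ≤ n := div_le_self hn0.le hr
    linarith
  have h4 := log_cube h1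
  have h5 : r ^ 2 / n * Real.log (2 + n / r) ^ 3 ≤ 81 * r := by
    calc r ^ 2 / n * Real.log (2 + n / r) ^ 3 ≤ r ^ 2 / n * (81 * (n / r)) := by gcongr
      _ = 81 * r := by field_simp
  unfold EE'
  rw [add_mul, one_mul]
  linarith

/-- the window of lengths -/
lemma EE_window {n m : ℕ} {r : ℝ} (hr : 1 ≤ r) (hrn : r ≤ n) (h1 : n ≤ 2 * m) (h2 : m ≤ 2 * n) :
    (1 + r ^ 2 / m) * Real.log (2 + m / r) ^ 3 ≤ 16 * EE' n r := by
  have hr0 : 0 < r := by linarith
  have hn0 : (0 : ℝ) < n := by linarith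
  have h1' : (n : ℝ) ≤ 2 * m := by exact_mod_cast h1
  have h2' : (m : ℝ) ≤ 2 * n := by exact_mod_cast h2
  have hm0 : (0 : ℝ) < m := by linarith
  have hz : 1 ≤ (n : ℝ) / r := by rw [le_div_iff₀ hr0, one_mul]; exact hrn
  have hl := one_le_log_two_add hz
  have h3 : Real.log (2 + m / r) ≤ 2 * Real.log (2 + n / r) := by
    have h4 : (m : ℝ) / r ≤ 2 * (n / r) := by
      rw [← mul_div_assoc]; gcongr
    calc Real.log (2 + m / r) ≤ Real.log ((2 + n / r) ^ 2) := by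
          apply Real.log_le_log (by positivity)
          nlinarith
      _ = _ := by rw [Real.log_pow]; push_cast; ring
  have h3' : 0 ≤ Real.log (2 + m / r) := Real.log_nonneg (by
    have : 0 ≤ (m : ℝ) / r := by positivity
    linarith)
  have h5 : 1 + r ^ 2 / m ≤ 2 * (1 + r ^ 2 / n) := by
    have h6 : r ^ 2 / m ≤ 2 * (r ^ 2 / n) := by
      rw [← mul_div_assoc, div_le_div_iff₀ hm0 hn0]
      nlinarith [sq_nonneg r]
    linarith
  unfold EE'
  calc (1 + r ^ 2 / m) * Real.log (2 + m / r) ^ 3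
      ≤ (2 * (1 + r ^ 2 / n)) * (2 * Real.log (2 + n / r)) ^ 3 := by
        have : 0 ≤ 1 + r ^ 2 / m := by positivity
        gcongr
    _ = _ := by ring

lemma log_window' {n m : ℕ} (hn : 2 ≤ n) (hm : 2 ≤ m) (h2 : m ≤ 2 * n) :
    Real.log m ^ 3 ≤ 8 * Real.log n ^ 3 := by
  have hn1 : (2 : ℝ) ≤ n := by exact_mod_cast hn
  have hm1 : (2 : ℝ) ≤ m := by exact_mod_cast hm
  have h2' : (m : ℝ) ≤ 2 * n := by exact_mod_cast h2
  have h3 : Real.log m ≤ 2 * Real.log n := by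
    calc Real.log m ≤ Real.log ((n : ℝ) ^ 2) := by
          apply Real.log_le_log (by linarith)
          nlinarith
      _ = _ := by rw [Real.log_pow]; push_cast; ring
  have h4 : 0 ≤ Real.log m := Real.log_nonneg (by linarith)
  calc Real.log m ^ 3 ≤ (2 * Real.log n) ^ 3 := pow_le_pow_left₀ h4 h3 3
    _ = _ := by ring

lemma c_upper : ∃ K : ℝ, 0 ≤ K ∧ ∀ m : ℕ, 2 ≤ m →
    (TH795.EP.c m : ℝ) ≤ H981.mu ^ m * Real.exp (K * Real.log m ^ 3) := by
  obtain ⟨K, hK, h, -⟩ := TH795.EP.exists_K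
  exact ⟨K, hK, fun m hm => h m hm m le_rfl⟩

lemma c_lower (m : ℕ) : H981.mu ^ m ≤ (TH795.EP.c m : ℝ) := by
  rw [TH795.EP.c_eq]; exact H981.mu_pow_le m

/-- every length -/
lemma log_o (κ : ℝ) (hκ : 0 < κ) : ∃ n0 : ℕ, 3 ≤ n0 ∧ ∀ n : ℕ, n0 ≤ n →
    Real.log (2 + n) ^ 3 ≤ κ * n := by
  have h1 : (fun x : ℝ => Real.log x ^ 3) =o[Filter.atTop] (id : ℝ → ℝ) :=
    Real.isLittleO_pow_log_id_atTop
  have h2 := h1.bound (show (0 : ℝ) < κ / 3 by positivity)
  have h3 := (Filter.tendsto_atTop_add_const_left Filter.atTop (2 : ℝ)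
    (tendsto_natCast_atTop_atTop (R := ℝ))).eventually h2
  obtain ⟨N, hN⟩ := Filter.eventually_atTop.1 h3
  refine ⟨max N 3, le_max_right _ _, fun n hn => ?_⟩
  have h5 := hN n ((le_max_left _ _).trans hn)
  have hn1 : (3 : ℝ) ≤ n := by exact_mod_cast (le_max_right _ _).trans hn
  rw [Real.norm_eq_abs, Real.norm_eq_abs, id, abs_of_nonneg (by linarith : (0 : ℝ) ≤ 2 + n)] at h5
  have h7 := (le_abs_self _).trans h5
  calc Real.log (2 + n) ^ 3 ≤ κ / 3 * (2 + n) := h7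
    _ ≤ κ / 3 * (3 * n) := by gcongr; linarith
    _ = κ * n := by ring

/-- **all walks** -/
theorem tot : ∃ C : ℝ, 0 ≤ C ∧ ∃ n0 : ℕ, ∀ n : ℕ, n0 ≤ n →
    |(TH795.EP.c (n + 2) : ℝ) / (H981.mu ^ 2 * TH795.EP.c n) - 1| ≤
      Real.sqrt (C * (Real.log n ^ 3 / n)) := by
  obtain ⟨K, hK, hup⟩ := c_upper
  obtain ⟨κ, hκ, C0, hC0, h⟩ := gen (8 * K) (by positivity)
  obtain ⟨n0, hn3, hn0⟩ := log_o κ hκ
  refine ⟨C0, hC0, n0, fun n hn => ?_⟩
  have hn3' : 3 ≤ n := hn3.trans hn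
  have hnR : (3 : ℝ) ≤ n := by exact_mod_cast hn3'
  have hl : 1 ≤ Real.log n := Pool.Agent.H739K.RATE.one_le_log hn3'
  have h1 := h n hn3' (Real.log n ^ 3) (one_le_pow₀ hl) (by
    refine le_trans ?_ (hn0 n hn)
    apply pow_le_pow_left₀ (by linarith)
    apply Real.log_le_log (by linarith) (by linarith)) (fun _ => 1) inv_one (by
    intro m hm1 hm2 _
    rw [mom_one]
    constructor
    · refine le_trans ?_ (c_lower m)
      have h2 : Real.exp (-(8 * K * Real.log n ^ 3)) ≤ 1 := by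
        rw [Real.exp_le_one_iff]
        have : 0 ≤ 8 * K * Real.log n ^ 3 := by positivity
        linarith
      have h3 : 0 < H981.mu ^ m := pow_pos H981.mu_pos m
      nlinarith
    · refine (hup m (by omega)).trans ?_
      have h2 := log_window' (by omega : 2 ≤ n) (by omega : 2 ≤ m) hm2
      have h3 : 0 < H981.mu ^ m := pow_pos H981.mu_pos m
      apply mul_le_mul_of_nonneg_left _ h3.le
      apply Real.exp_le_exp.2
      nlinarith)
  have h2 := h1.2
  rw [mom_one, mom_one] at h2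
  exact h2

/-- **walks to a point** -/
theorem pt : ∃ κ : ℝ, 0 < κ ∧ κ ≤ 1 / 4 ∧ ∃ C : ℝ, 0 ≤ C ∧ ∃ n0 : ℕ, ∀ n : ℕ, n0 ≤ n → ∀ x y : ℤ,
    (x, y) ≠ (0, 0) → (x + y - n) % 2 = 0 → ∀ r : ℝ, 0 ≤ r → r ^ 2 = (x : ℝ) ^ 2 + (y : ℝ) ^ 2 →
    r ≤ κ * n → 0 < (TH795.EP.a n x y : ℝ) ∧
      |(TH795.EP.a (n + 2) x y : ℝ) / (H981.mu ^ 2 * TH795.EP.a n x y) - 1| ≤
        Real.sqrt (C * (EE' n r / n)) := by
  obtain ⟨K, hK, hup⟩ := c_upper
  obtain ⟨K1, hK1, hlow⟩ := SawE.gauss_words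
  obtain ⟨κ, hκ, C0, hC0, h⟩ := gen (16 * K1 + 512 * K) (by positivity)
  obtain ⟨n0, hn3, hn0⟩ := log_o (κ / 2) (by positivity)
  refine ⟨min (κ / 162) (1 / 4), by positivity, min_le_right _ _, C0, hC0, n0, ?_⟩
  intro n hn x y hxy hpar r hr0 hr2 hrn
  have hn3' : 3 ≤ n := hn3.trans hn
  have hnR : (3 : ℝ) ≤ n := by exact_mod_cast hn3'
  have hr1 : 1 ≤ r := by
    by_contra hcon
    push Not at hcon
    have h1 : (x : ℝ) ^ 2 + (y : ℝ) ^ 2 < 1 := by rw [← hr2]; nlinarith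
    have h2 : x ^ 2 + y ^ 2 < 1 := by exact_mod_cast h1
    have h3 : x = 0 := by nlinarith [sq_nonneg x, sq_nonneg y]
    have h4 : y = 0 := by nlinarith [sq_nonneg x, sq_nonneg y]
    exact hxy (by rw [h3, h4])
  have hr4 : r ≤ n / 4 := by
    have : r ≤ 1 / 4 * n := hrn.trans (by gcongr; exact min_le_right _ _)
    linarith
  have hrκ : r ≤ κ / 162 * n := hrn.trans (by gcongr; exact min_le_left _ _)
  have hrn' : r ≤ n := by linarith
  have hsum : ((|x| + |y| : ℤ) : ℝ) ≤ n / 2 := by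
    have h1 : ((|x| + |y| : ℤ) : ℝ) ^ 2 ≤ (2 * r) ^ 2 := by
      push_cast
      have e1 := sq_abs (x : ℝ)
      have e2 := sq_abs (y : ℝ)
      nlinarith [sq_nonneg (|(x : ℝ)| - |(y : ℝ)|), sq_nonneg r]
    have h2 : ((|x| + |y| : ℤ) : ℝ) ≤ 2 * r := by
      apply le_of_sq_le_sq h1 (by linarith) |>.trans_eq rfl
    linarith
  have hE1 := one_le_EE hr1 hrn'
  have hEn : EE' n r ≤ κ * n := by
    have h1 := EE_le hr1 hrn'
    have h2 := hn0 n hn
    linarith
  have hlogE : Real.log n ^ 3 ≤ 64 * EE' n r := SawE.log_gauss (by omega) hr1 hrn'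
  have h1 := h n hn3' (EE' n r) hE1 hEn (phi (x, y)) (inv_phi (x, y)) (by
    intro m hm1 hm2 hm3
    rw [mom_phi]
    have h3 : 0 < H981.mu ^ m := pow_pos H981.mu_pos m
    have hm2' : 2 ≤ m := by omega
    have hmR : (n : ℝ) ≤ 2 * m := by exact_mod_cast hm1
    constructor
    · have h4 := hlow m hm2' x y hxy (by omega) (by
        have h5 : ((|x| + |y| : ℤ) : ℝ) ≤ m := by linarith
        exact_mod_cast h5) r hr0 hr2
      refine le_trans ?_ h4
      have h5 := EE_window hr1 hrn' hm1 hm2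
      have h6 := c_lower m
      calc H981.mu ^ m * Real.exp (-((16 * K1 + 512 * K) * EE' n r))
          ≤ H981.mu ^ m * Real.exp (-(K1 * ((1 + r ^ 2 / m) * Real.log (2 + m / r) ^ 3))) := by
            apply mul_le_mul_of_nonneg_left _ h3.le
            apply Real.exp_le_exp.2
            have h7 : K1 * ((1 + r ^ 2 / m) * Real.log (2 + m / r) ^ 3) ≤
              K1 * (16 * EE' n r) := mul_le_mul_of_nonneg_left h5 hK1
            have h8 : 0 ≤ K * EE' n r := by positivity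
            linarith
        _ = Real.exp (-(K1 * ((1 + r ^ 2 / m) * Real.log (2 + m / r) ^ 3))) * H981.mu ^ m :=
            mul_comm _ _
        _ ≤ _ := mul_le_mul_of_nonneg_left h6 (Real.exp_pos _).le
    · have h4 : (TH795.EP.a m x y : ℝ) ≤ TH795.EP.c m := by
        exact_mod_cast (by
          unfold TH795.EP.a TH795.EP.c
          apply Finset.card_le_card
          intro w hw
          rw [TH795.EP.mem_fs] at hw ⊢
          exact ⟨hw.1.1, hw.2⟩ : TH795.EP.a m x y ≤ TH795.EP.c m)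
      refine h4.trans ((hup m hm2').trans ?_)
      have h2 := log_window' (by omega : 2 ≤ n) hm2' hm2
      apply mul_le_mul_of_nonneg_left _ h3.le
      apply Real.exp_le_exp.2
      have h5 : K * Real.log m ^ 3 ≤ K * (512 * EE' n r) :=
        mul_le_mul_of_nonneg_left (by linarith) hK
      have h6 : 0 ≤ K1 * EE' n r := by positivity
      linarith)
  rw [mom_phi, mom_phi] at h1
  exact h1

end Pool.Agent.TH262.RX
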