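import Pool.Agent.TH262.RX.Ratio
import Pool.Agent.H739K.RATE
import Pool.Agent.H739K.BND
import Pool.Agent.H739K.CONV

/-!
# The ratio theorem with a rate, for insertion-invariant weights of arbitrary strength
-/

set_option autoImplicit false
set_option linter.unusedVariables false

namespace Pool.Agent.TH262.RX

open Finset Pool.Agent.H976R2
open scoped Classical

lemma mu_ge : 2.43 ≤ H981.mu := (Pool.Agent.H739K.BND_proof Pool.Agent.H739K.CONV_proof).1

/-- few bumps: the exponential gain beats a small exponential loss -/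
theorem few_small : ∃ F : ℝ, 0 < F ∧ ∀ m : ℕ, 1 ≤ m → ∀ A : ℝ, A ≤ m / 4860 →
    ∀ M : ℝ, H981.mu ^ m * Real.exp (-A) ≤ M → ((few (m + 2)).card : ℝ) ≤ F / m * M := by
  obtain ⟨C, hC, h1⟩ := Few.few_card
  obtain ⟨B, hB0, hB⟩ := Pool.Agent.H739K.RATIO.bounded 0 le_rfl (2.428 / 2.43 * (1 + 1 / 2430))
    (by norm_num) (by norm_num)
  refine ⟨C * 2.428 ^ 2 * B, by positivity, ?_⟩
  intro m hm A hA M hM
  have hm1 : (1 : ℝ) ≤ m := by exact_mod_cast hm
  have hm0 : (0 : ℝ) < m := by linarith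
  have hmu := mu_ge
  have h2 : Real.exp A ≤ (1 + 1 / 2430) ^ m := by
    have h3 := Pool.Agent.H739K.RATE.half_exp (x := 1 / 2430) (by norm_num) (by norm_num)
    calc Real.exp A ≤ Real.exp (m * (1 / 2430 / 2)) := Real.exp_le_exp.2 (by linarith)
      _ = (Real.exp (1 / 2430 / 2)) ^ m := by rw [← Real.exp_nat_mul]
      _ ≤ _ := pow_le_pow_left₀ (Real.exp_pos _).le h3 m
  have h4 : (m : ℝ) * (2.428 / 2.43 * (1 + 1 / 2430)) ^ m ≤ B := by
    have h5 := hB m
    rw [zero_mul, Real.exp_zero, mul_one] at h5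
    refine le_trans ?_ h5
    gcongr
    calc (m : ℝ) = m ^ 1 := (pow_one _).symm
      _ ≤ m ^ 4 := pow_le_pow_right₀ hm1 (by norm_num)
  have h6 : (2.43 : ℝ) ^ m ≤ H981.mu ^ m := pow_le_pow_left₀ (by norm_num) hmu m
  have h7 : (2.43 : ℝ) ^ m ≤ Real.exp A * M := by
    calc (2.43 : ℝ) ^ m ≤ H981.mu ^ m := h6
      _ = Real.exp A * (H981.mu ^ m * Real.exp (-A)) := by
          rw [mul_comm (H981.mu ^ m), ← mul_assoc, ← Real.exp_add]; simp
      _ ≤ _ := by gcongr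
  have hM0 : 0 ≤ M := le_trans (by
    have : 0 < H981.mu := by linarith
    positivity) hM
  rw [div_mul_eq_mul_div, le_div_iff₀ hm0]
  have h8 : (2.428 : ℝ) ^ m * Real.exp A * m ≤ B * 2.43 ^ m := by
    calc (2.428 : ℝ) ^ m * Real.exp A * m ≤ 2.428 ^ m * (1 + 1 / 2430) ^ m * m := by gcongr
      _ = (m * (2.428 / 2.43 * (1 + 1 / 2430)) ^ m) * 2.43 ^ m := by
          rw [mul_pow, div_pow]; field_simp
      _ ≤ _ := by gcongr
  have h9 : (2.428 : ℝ) ^ m * m ≤ B * M := by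
    have h10 : (2.428 : ℝ) ^ m * m * Real.exp A ≤ B * M * Real.exp A := by
      calc (2.428 : ℝ) ^ m * m * Real.exp A = 2.428 ^ m * Real.exp A * m := by ring
        _ ≤ B * 2.43 ^ m := h8
        _ ≤ B * (Real.exp A * M) := by gcongr
        _ = _ := by ring
    exact le_of_mul_le_mul_right h10 (Real.exp_pos _)
  calc ((few (m + 2)).card : ℝ) * m ≤ C * 2.428 ^ (m + 2) * m := by
        have := h1 (m + 2)
        gcongr
    _ = C * 2.428 ^ 2 * (2.428 ^ m * m) := by ring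
    _ ≤ C * 2.428 ^ 2 * (B * M) := by gcongr
    _ = _ := by ring

/-- **General ratio theorem.** -/
theorem gen (K : ℝ) (hK : 0 ≤ K) : ∃ κ : ℝ, 0 < κ ∧ ∃ C0 : ℝ, 0 ≤ C0 ∧
    ∀ n : ℕ, 3 ≤ n → ∀ E : ℝ, 1 ≤ E → E ≤ κ * n → ∀ φ : List Dir → ℝ, Inv φ →
      (∀ m : ℕ, n ≤ 2 * m → m ≤ 2 * n → m % 2 = n % 2 →
        H981.mu ^ m * Real.exp (-(K * E)) ≤ mom φ m ∧ mom φ m ≤ H981.mu ^ m * Real.exp (K * E)) →
      0 < mom φ n ∧
      |mom φ (n + 2) / (H981.mu ^ 2 * mom φ n) - 1| ≤ Real.sqrt (C0 * (E / n)) := by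
  obtain ⟨F, hF, hfew⟩ := few_small
  obtain ⟨D, hDdef⟩ : ∃ D, D = DD F := ⟨_, rfl⟩
  have hD : 1 ≤ D := by rw [hDdef]; exact one_le_DD hF.le
  have hD0 : 0 < D := by linarith
  obtain ⟨C0, hC0⟩ : ∃ C0, C0 = 16 * D * (8 * K + 1) := ⟨_, rfl⟩
  have hC0pos : 0 < C0 := by rw [hC0]; positivity
  have hmu := mu_ge
  have hmu0 : 0 < H981.mu := by linarith
  refine ⟨min (1 / (9720 * (K + 1))) (1 / (8 * C0)), by positivity, C0, hC0pos.le, ?_⟩
  intro n hn E hE1 hEn φ hφ hb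
  have hn0 : (0 : ℝ) < n := by exact_mod_cast (by omega : 0 < n)
  have hE_a : K * E ≤ n / 9720 := by
    have h1 : E ≤ 1 / (9720 * (K + 1)) * n := hEn.trans (by gcongr; exact min_le_left _ _)
    have h2 : (K + 1) * E ≤ n / 9720 := by
      calc (K + 1) * E ≤ (K + 1) * (1 / (9720 * (K + 1)) * n) := by gcongr
        _ = n / 9720 := by field_simp
    nlinarith
  have hE_b : C0 * E ≤ n / 8 := by
    have h1 : E ≤ 1 / (8 * C0) * n := hEn.trans (by gcongr; exact min_le_right _ _)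
    calc C0 * E ≤ C0 * (1 / (8 * C0) * n) := by gcongr
      _ = n / 8 := by field_simp
  obtain ⟨b, hbdef⟩ : ∃ b : ℕ → ℝ, b = fun m => mom φ m / H981.mu ^ m := ⟨_, rfl⟩
  have hb' : ∀ m : ℕ, n ≤ 2 * m → m ≤ 2 * n → m % 2 = n % 2 →
      Real.exp (-(K * E)) ≤ b m ∧ b m ≤ Real.exp (K * E) := by
    intro m h1 h2 h3
    obtain ⟨h4, h5⟩ := hb m h1 h2 h3
    have hp : (0 : ℝ) < H981.mu ^ m := by positivity
    rw [hbdef]
    constructor
    · show _ ≤ mom φ m / H981.mu ^ m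
      rw [le_div_iff₀ hp, mul_comm]; exact h4
    · show mom φ m / H981.mu ^ m ≤ _
      rw [div_le_iff₀ hp, mul_comm]; exact h5
  have hfw : ∀ m : ℕ, n ≤ 2 * m → m ≤ 2 * n → m % 2 = n % 2 →
      ((few (m + 2)).card : ℝ) ≤ F / m * mom φ m := by
    intro m h1 h2 h3
    refine hfew m (by omega) (K * E) ?_ _ (hb m h1 h2 h3).1
    have h4 : (n : ℝ) ≤ 2 * m := by exact_mod_cast h1
    linarith
  have hstep : ∀ m : ℕ, n ≤ 2 * m → m + 4 ≤ 2 * n → m % 2 = n % 2 →
      b (m + 2) ^ 2 ≤ b m * b (m + 4) + D / m * b m ^ 2 := by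
    intro m h1 h2 h3
    have h := ratio hF.le hφ (show 2 ≤ m by omega) (hfw m h1 (by omega) h3)
      (hfw (m + 2) (by omega) (by omega) (by omega))
    rw [← hDdef] at h
    have hp : (0 : ℝ) < H981.mu ^ m := by positivity
    have hm0 : (0 : ℝ) < m := by exact_mod_cast (by omega : 0 < m)
    rw [hbdef]
    show (mom φ (m + 2) / H981.mu ^ (m + 2)) ^ 2 ≤ mom φ m / H981.mu ^ m *
      (mom φ (m + 4) / H981.mu ^ (m + 4)) + D / m * (mom φ m / H981.mu ^ m) ^ 2
    rw [div_pow, ← pow_mul]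
    have e1 : H981.mu ^ ((m + 2) * 2) = H981.mu ^ m * H981.mu ^ (m + 4) := by
      rw [← pow_add]; congr 1; ring
    have e2 : H981.mu ^ ((m + 2) * 2) = H981.mu ^ 4 * (H981.mu ^ m) ^ 2 := by
      rw [← pow_mul, ← pow_add]; congr 1; ring
    have h4 : (D / H981.mu ^ 4) / m * (mom φ m / H981.mu ^ m) ^ 2 ≤
        D / m * (mom φ m / H981.mu ^ m) ^ 2 := by
      apply mul_le_mul_of_nonneg_right _ (by positivity)
      apply div_le_div_of_nonneg_right _ hm0.le
      exact div_le_self hD0.le (one_le_pow₀ (by linarith))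
    have h3' : mom φ m / H981.mu ^ m * (mom φ (m + 4) / H981.mu ^ (m + 4)) +
        (D / H981.mu ^ 4) / m * (mom φ m / H981.mu ^ m) ^ 2 =
        (mom φ m * mom φ (m + 4) + D / m * mom φ m ^ 2) / H981.mu ^ ((m + 2) * 2) := by
      rw [add_div]
      congr 1
      · rw [e1]; field_simp
      · rw [e2]; field_simp
    calc mom φ (m + 2) ^ 2 / H981.mu ^ ((m + 2) * 2)
        ≤ (mom φ m * mom φ (m + 4) + D / m * mom φ m ^ 2) / H981.mu ^ ((m + 2) * 2) :=
          div_le_div_of_nonneg_right h (by positivity)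
      _ = _ := h3'.symm
      _ ≤ _ := by linarith
  have hbn := hb' n (by omega) (by omega) rfl
  have hbpos : 0 < b n := lt_of_lt_of_le (Real.exp_pos _) hbn.1
  have hMpos : 0 < mom φ n := by
    have := (hb n (by omega) (by omega) rfl).1
    exact lt_of_lt_of_le (by positivity) this
  refine ⟨hMpos, ?_⟩
  have hid : mom φ (n + 2) / (H981.mu ^ 2 * mom φ n) - 1 = b (n + 2) / b n - 1 := by
    rw [hbdef]
    show _ = mom φ (n + 2) / H981.mu ^ (n + 2) / (mom φ n / H981.mu ^ n) - 1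
    have hp : (0 : ℝ) < H981.mu ^ n := by positivity
    rw [pow_add]
    field_simp
  rw [hid]
  have hKE : 0 ≤ K * E := by positivity
  have main : ∀ δ : ℝ, 0 < δ → δ ≤ 1 / 2 → δ ≤ |b (n + 2) / b n - 1| → δ ^ 2 * n ≤ C0 * E := by
    intro δ h0 h1 h2
    have hC : 16 * D * (8 * (K * E) + 1) ≤ C0 * E := by
      rw [hC0]
      have : 16 * D * (8 * (K * E) + 1) ≤ 16 * D * (8 * (K * E) + E) := by gcongr
      refine this.trans (le_of_eq ?_)
      ring
    rcases le_total 0 (b (n + 2) / b n - 1) with h3 | h3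
    · rw [abs_of_nonneg h3] at h2
      have h4 := Pool.Agent.H739K.RATE.upper hD hn hb' hstep h0 (by linarith) (by linarith)
      refine h4.trans (le_trans ?_ hC)
      gcongr
      norm_num
    · rw [abs_of_nonpos h3] at h2
      have h4 := Pool.Agent.H739K.RATE.lower hD hn hb' hstep h0 h1 (by linarith)
      refine h4.trans (le_trans ?_ hC)
      gcongr
      norm_num
  by_cases hc : |b (n + 2) / b n - 1| ≤ 1 / 2
  · rcases (abs_nonneg (b (n + 2) / b n - 1)).eq_or_lt with h0 | h0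
    · rw [← h0]; positivity
    · have h3 := main _ h0 hc le_rfl
      apply Real.le_sqrt_of_sq_le
      rw [← mul_div_assoc, le_div_iff₀ hn0]
      exact h3
  · push Not at hc
    have h3 := main (1 / 2) (by norm_num) le_rfl hc.le
    exfalso
    nlinarith

end Pool.Agent.TH262.RX
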