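import Pool.Agent.TH262.RX.Tv
import Pool.Agent.TH508.LT.Fin2
import Pool.Agent.H976R2.KMom

/-!
# The two-step ratio limit in `L¹`
-/

set_option autoImplicit false
set_option linter.unusedVariables false

namespace Pool.Agent.TH262.RX

open Finset Pool.Agent.H976R2
open scoped Classical

/-- the weight `(1 + 1_A) / 2` -/
noncomputable def wA (A : Set (ℤ × ℤ)) (w : List Dir) : ℝ :=
  (1 + if (wX w, wY w) ∈ A then 1 else 0) / 2

lemma inv_wA (A : Set (ℤ × ℤ)) : Inv (wA A) where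
  nn := fun w => by unfold wA; split_ifs <;> norm_num
  le := fun w => by unfold wA; split_ifs <;> norm_num
  inv := fun w p hp => by
    have hi := (mem_adm.mp (show (p.1, p.2) ∈ adm w from hp)).1
    unfold wA
    rw [wX_ins p.2 hi, wY_ins p.2 hi]

lemma half_le_wA (A : Set (ℤ × ℤ)) (w : List Dir) : 1 / 2 ≤ wA A w := by
  unfold wA; split_ifs <;> norm_num

/-- number of walks ending in `A` -/
noncomputable def cA (A : Set (ℤ × ℤ)) (n : ℕ) : ℝ :=
  ∑ w ∈ SW n, if (wX w, wY w) ∈ A then (1 : ℝ) else 0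

lemma mom_wA (A : Set (ℤ × ℤ)) (n : ℕ) :
    mom (wA A) n = ((TH795.EP.c n : ℝ) + cA A n) / 2 := by
  rw [← mom_one n]
  unfold mom wA cA
  rw [← Finset.sum_add_distrib, Finset.sum_div]

lemma cA_nonneg (A : Set (ℤ × ℤ)) (n : ℕ) : 0 ≤ cA A n :=
  Finset.sum_nonneg fun w _ => by split_ifs <;> norm_num

lemma cA_le (A : Set (ℤ × ℤ)) (n : ℕ) : cA A n ≤ TH795.EP.c n := by
  rw [← mom_one n]
  unfold cA mom
  exact Finset.sum_le_sum fun w _ => by split_ifs <;> norm_num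

lemma mem_box_word {n N : ℕ} (hN : n ≤ N) {w : List Dir} (hw : w ∈ SW n) :
    (wX w, wY w) ∈ box N := by
  obtain ⟨hl, hs⟩ := mem_SW.mp hw
  have h : Pw n (wX w, wY w) ≠ 0 := by
    have h1 : 0 < mom (phi (wX w, wY w)) n := by
      unfold mom
      refine Finset.sum_pos' (fun v _ => (inv_phi _).nn v) ⟨w, hw, ?_⟩
      unfold phi
      simp
    rw [mom_phi] at h1
    have h2 := one_le_c n
    unfold Pw
    have : 0 < (TH795.EP.a n (wX w) (wY w) : ℝ) / TH795.EP.c n := by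
      apply div_pos h1; linarith
    exact this.ne'
  exact mem_box_of_pos hN h

lemma cA_eq (A : Set (ℤ × ℤ)) {n N : ℕ} (hN : n ≤ N) :
    cA A n = ∑ x ∈ (box N).filter (fun x => x ∈ A), (TH795.EP.a n x.1 x.2 : ℝ) := by
  have h1 : ∀ x : ℤ × ℤ, (TH795.EP.a n x.1 x.2 : ℝ) = ∑ w ∈ SW n, phi x w := fun x => by
    rw [← mom_phi]; rfl
  simp_rw [h1]
  rw [Finset.sum_comm]
  unfold cA
  refine Finset.sum_congr rfl (fun w hw => ?_)
  have hb := mem_box_word hN hw
  unfold phi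
  rw [Finset.sum_ite_eq]
  by_cases hA : (wX w, wY w) ∈ A
  · rw [if_pos hA, if_pos (Finset.mem_filter.2 ⟨hb, hA⟩)]
  · rw [if_neg hA, if_neg (fun h => hA (Finset.mem_filter.1 h).2)]

lemma c_upper2 : ∃ K : ℝ, 0 ≤ K ∧ ∀ m : ℕ, 2 ≤ m →
    (TH795.EP.c m : ℝ) ≤ H981.mu ^ m * Real.exp (K * Real.log m ^ 2) := by
  obtain ⟨K, hK, h⟩ := TH508.LT.sq_upper2
  exact ⟨K, hK, fun m hm => by rw [TH795.EP.c_eq]; exact h m hm⟩

/-- the ratio theorem for sets of end points -/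
theorem sets : ∃ C : ℝ, 0 ≤ C ∧ ∃ n0 : ℕ, 3 ≤ n0 ∧ ∀ n : ℕ, n0 ≤ n → ∀ A : Set (ℤ × ℤ),
    |((TH795.EP.c (n + 2) : ℝ) + cA A (n + 2)) / (H981.mu ^ 2 * ((TH795.EP.c n : ℝ) + cA A n)) - 1| ≤
      C * (Real.log n / Real.sqrt n) := by
  obtain ⟨K, hK, hup⟩ := c_upper2
  obtain ⟨κ, hκ, C0, hC0, h⟩ := gen (4 * K + 1) (by positivity)
  obtain ⟨n0, hn3, hn0⟩ := log_o κ hκ
  refine ⟨Real.sqrt C0, Real.sqrt_nonneg _, n0, hn3, fun n hn A => ?_⟩
  have hn3' : 3 ≤ n := hn3.trans hn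
  have hnR : (3 : ℝ) ≤ n := by exact_mod_cast hn3'
  have hl : 1 ≤ Real.log n := Pool.Agent.H739K.RATE.one_le_log hn3'
  have h1 := h n hn3' (Real.log n ^ 2) (one_le_pow₀ hl) (by
    refine le_trans ?_ (hn0 n hn)
    have h2 : Real.log n ≤ Real.log (2 + n) := Real.log_le_log (by linarith) (by linarith)
    calc Real.log n ^ 2 ≤ Real.log n ^ 3 := pow_le_pow_right₀ hl (by norm_num)
      _ ≤ Real.log (2 + n) ^ 3 := by gcongr) (wA A) (inv_wA A) (by
    intro m hm1 hm2 _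
    have h3 : 0 < H981.mu ^ m := pow_pos H981.mu_pos m
    have hc := c_lower m
    have h4 := cA_nonneg A m
    have h5 := cA_le A m
    rw [mom_wA]
    constructor
    · have h6 : Real.exp (-((4 * K + 1) * Real.log n ^ 2)) ≤ 1 / 2 := by
        have h7 : Real.exp (-((4 * K + 1) * Real.log n ^ 2)) ≤ Real.exp (-1) := by
          apply Real.exp_le_exp.2
          nlinarith [mul_nonneg hK (sq_nonneg (Real.log n))]
        have h8 : Real.exp (-1) ≤ 1 / 2 := by
          rw [Real.exp_neg, inv_le_comm₀ (Real.exp_pos _) (by norm_num)]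
          have := Real.add_one_le_exp 1
          linarith
        linarith
      calc H981.mu ^ m * Real.exp (-((4 * K + 1) * Real.log n ^ 2)) ≤ H981.mu ^ m * (1 / 2) := by
            gcongr
        _ ≤ _ := by linarith
    · have h6 := hup m (by omega)
      have h7 : Real.log m ≤ 2 * Real.log n := by
        have hm1' : (2 : ℝ) ≤ m := by exact_mod_cast (by omega : 2 ≤ m)
        have h2' : (m : ℝ) ≤ 2 * n := by exact_mod_cast hm2
        calc Real.log m ≤ Real.log ((n : ℝ) ^ 2) := by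
              apply Real.log_le_log (by linarith)
              nlinarith
          _ = _ := by rw [Real.log_pow]; push_cast; ring
      have h8 : 0 ≤ Real.log (m : ℝ) := Real.log_natCast_nonneg m
      have h9 : Real.log m ^ 2 ≤ 4 * Real.log n ^ 2 := by nlinarith
      calc ((TH795.EP.c m : ℝ) + cA A m) / 2 ≤ TH795.EP.c m := by linarith
        _ ≤ H981.mu ^ m * Real.exp (K * Real.log m ^ 2) := h6
        _ ≤ _ := by
          apply mul_le_mul_of_nonneg_left _ h3.le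
          apply Real.exp_le_exp.2
          have : K * Real.log m ^ 2 ≤ K * (4 * Real.log n ^ 2) := by gcongr
          nlinarith [sq_nonneg (Real.log n)])
  have h2 := h1.2
  rw [mom_wA, mom_wA] at h2
  have e : ((TH795.EP.c (n + 2) : ℝ) + cA A (n + 2)) / 2 /
      (H981.mu ^ 2 * (((TH795.EP.c n : ℝ) + cA A n) / 2)) =
      ((TH795.EP.c (n + 2) : ℝ) + cA A (n + 2)) / (H981.mu ^ 2 * ((TH795.EP.c n : ℝ) + cA A n)) := by
    have h3 := one_le_c n
    have h4 := cA_nonneg A n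
    have h5 := H981.mu_pos
    field_simp
  rw [e] at h2
  refine h2.trans (le_of_eq ?_)
  rw [Real.sqrt_mul hC0, Real.sqrt_div (by positivity), Real.sqrt_sq (by linarith)]

/-- the rate -/
noncomputable def rho (n : ℕ) : ℝ := Real.log n / Real.sqrt n

lemma rho_nonneg (n : ℕ) : 0 ≤ rho n := by
  unfold rho
  exact div_nonneg (Real.log_natCast_nonneg n) (Real.sqrt_nonneg _)

lemma rho_small {n N : ℕ} (hn : 2 ≤ n) (hN : n ≤ N) : 1 ≤ (Real.sqrt N / Real.log 2) * rho n := by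
  have h1 : Real.log 2 ≤ Real.log n := TH795.EP.log_ge hn
  have h2 : 0 < Real.log 2 := Real.log_pos (by norm_num)
  have hn0 : (0 : ℝ) < n := by exact_mod_cast (by omega : 0 < n)
  have h3 : 0 < Real.sqrt n := Real.sqrt_pos.2 hn0
  have h4 : Real.sqrt n ≤ Real.sqrt N := Real.sqrt_le_sqrt (by exact_mod_cast hN)
  unfold rho
  rw [div_mul_div_comm, one_le_div (by positivity)]
  calc Real.log 2 * Real.sqrt n ≤ Real.log n * Real.sqrt N := by gcongr
    _ = _ := mul_comm _ _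

/-- **the `L¹` local ratio limit** -/
theorem l1_large : ∃ C : ℝ, 0 ≤ C ∧ ∃ n0 : ℕ, 3 ≤ n0 ∧ ∀ n : ℕ, n0 ≤ n →
    ∑ x ∈ box (n + 2), |(TH795.EP.a (n + 2) x.1 x.2 : ℝ) - H981.mu ^ 2 * TH795.EP.a n x.1 x.2| ≤
      C * rho n * TH795.EP.c n := by
  obtain ⟨C, hC, n0, hn0, h⟩ := sets
  have hmu := H981.mu_pos
  refine ⟨6 * C * H981.mu ^ 2, by positivity, n0, hn0, fun n hn => ?_⟩
  have hc := one_le_c n
  have key : ∀ A : Set (ℤ × ℤ), |cA A (n + 2) - H981.mu ^ 2 * cA A n| ≤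
      3 * C * H981.mu ^ 2 * rho n * TH795.EP.c n := by
    intro A
    have hA := h n hn A
    have h0 := h n hn ∅
    have e0 : ∀ m : ℕ, cA (∅ : Set (ℤ × ℤ)) m = 0 := fun m => by unfold cA; simp
    rw [e0, e0, add_zero, add_zero] at h0
    have hcA0 := cA_nonneg A n
    have hcA1 := cA_le A n
    have e1 : ∀ X Y : ℝ, 0 < Y → X / (H981.mu ^ 2 * Y) - 1 =
        (X - H981.mu ^ 2 * Y) / (H981.mu ^ 2 * Y) := fun X Y hY => by field_simp
    rw [e1 _ _ (by linarith), abs_div, abs_of_pos (show 0 < H981.mu ^ 2 *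
      ((TH795.EP.c n : ℝ) + cA A n) by positivity), div_le_iff₀ (by positivity)] at hA
    rw [e1 _ _ (by linarith), abs_div, abs_of_pos (show 0 < H981.mu ^ 2 *
      (TH795.EP.c n : ℝ) by positivity), div_le_iff₀ (by positivity)] at h0
    have hr : 0 ≤ Real.log n / Real.sqrt n := rho_nonneg n
    have hA' : C * (Real.log n / Real.sqrt n) * (H981.mu ^ 2 * ((TH795.EP.c n : ℝ) + cA A n)) ≤
        C * (Real.log n / Real.sqrt n) * (H981.mu ^ 2 * (2 * (TH795.EP.c n : ℝ))) := by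
      gcongr
      linarith
    have e2 : cA A (n + 2) - H981.mu ^ 2 * cA A n =
        ((TH795.EP.c (n + 2) : ℝ) + cA A (n + 2) - H981.mu ^ 2 * ((TH795.EP.c n : ℝ) + cA A n)) -
        ((TH795.EP.c (n + 2) : ℝ) - H981.mu ^ 2 * (TH795.EP.c n : ℝ)) := by ring
    rw [e2]
    refine (abs_sub _ _).trans ?_
    have e3 : 3 * C * H981.mu ^ 2 * rho n * TH795.EP.c n =
        C * (Real.log n / Real.sqrt n) * (H981.mu ^ 2 * (2 * (TH795.EP.c n : ℝ))) +
        C * (Real.log n / Real.sqrt n) * (H981.mu ^ 2 * (TH795.EP.c n : ℝ)) := by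
      unfold rho; ring
    rw [e3]
    linarith
  obtain ⟨A, hA⟩ : ∃ A : Set (ℤ × ℤ), A = {x | H981.mu ^ 2 * TH795.EP.a n x.1 x.2 ≤
    (TH795.EP.a (n + 2) x.1 x.2 : ℝ)} := ⟨_, rfl⟩
  obtain ⟨B, hB⟩ : ∃ B : Set (ℤ × ℤ), B = Aᶜ := ⟨_, rfl⟩
  have hp := key A
  have hm := key B
  rw [cA_eq A (show n ≤ n + 2 by omega), cA_eq A (le_refl (n + 2)), Finset.mul_sum,
    ← Finset.sum_sub_distrib] at hp
  rw [cA_eq B (show n ≤ n + 2 by omega), cA_eq B (le_refl (n + 2)), Finset.mul_sum,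
    ← Finset.sum_sub_distrib] at hm
  rw [← Finset.sum_filter_add_sum_filter_not (box (n + 2)) (fun x => x ∈ A)]
  have s1 : ∑ x ∈ (box (n + 2)).filter (fun x => x ∈ A),
      |(TH795.EP.a (n + 2) x.1 x.2 : ℝ) - H981.mu ^ 2 * TH795.EP.a n x.1 x.2| =
      ∑ x ∈ (box (n + 2)).filter (fun x => x ∈ A),
      ((TH795.EP.a (n + 2) x.1 x.2 : ℝ) - H981.mu ^ 2 * TH795.EP.a n x.1 x.2) := by
    refine Finset.sum_congr rfl (fun x hx => abs_of_nonneg ?_)
    have := (Finset.mem_filter.1 hx).2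
    rw [hA] at this
    have h2 : H981.mu ^ 2 * TH795.EP.a n x.1 x.2 ≤ (TH795.EP.a (n + 2) x.1 x.2 : ℝ) := this
    linarith
  have s2 : ∑ x ∈ (box (n + 2)).filter (fun x => ¬ x ∈ A),
      |(TH795.EP.a (n + 2) x.1 x.2 : ℝ) - H981.mu ^ 2 * TH795.EP.a n x.1 x.2| =
      -∑ x ∈ (box (n + 2)).filter (fun x => x ∈ B),
      ((TH795.EP.a (n + 2) x.1 x.2 : ℝ) - H981.mu ^ 2 * TH795.EP.a n x.1 x.2) := by
    rw [← Finset.sum_neg_distrib]
    refine Finset.sum_congr (Finset.filter_congr fun x _ => by rw [hB, Set.mem_compl_iff])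
      (fun x hx => ?_)
    have := (Finset.mem_filter.1 hx).2
    rw [hB, hA] at this
    have h2 : ¬ H981.mu ^ 2 * TH795.EP.a n x.1 x.2 ≤ (TH795.EP.a (n + 2) x.1 x.2 : ℝ) := this
    rw [abs_of_nonpos (by linarith)]
  rw [s1, s2]
  have h3 := (abs_le.1 hp).2
  have h4 := (abs_le.1 hm).1
  linarith

lemma sum_aR {n N : ℕ} (hN : n ≤ N) :
    ∑ x ∈ box N, (TH795.EP.a n x.1 x.2 : ℝ) = TH795.EP.c n := by
  exact_mod_cast sum_a hN

/-- for every length -/
theorem l1 : ∃ C : ℝ, 0 ≤ C ∧ ∀ n : ℕ, 2 ≤ n →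
    ∑ x ∈ box (n + 2), |(TH795.EP.a (n + 2) x.1 x.2 : ℝ) - H981.mu ^ 2 * TH795.EP.a n x.1 x.2| ≤
      C * rho n * TH795.EP.c n := by
  obtain ⟨C, hC, n0, hn0, h⟩ := l1_large
  have hmu := H981.mu_pos
  obtain ⟨B, hB⟩ : ∃ B : ℝ, B = ∑ m ∈ Finset.range (n0 + 1),
    ((TH795.EP.c (m + 2) : ℝ) + H981.mu ^ 2 * TH795.EP.c m) := ⟨_, rfl⟩
  have hterm : ∀ m : ℕ, 0 ≤ (TH795.EP.c (m + 2) : ℝ) + H981.mu ^ 2 * TH795.EP.c m :=
    fun m => by positivity
  have hB0 : 0 ≤ B := by rw [hB]; exact Finset.sum_nonneg fun m _ => hterm m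
  refine ⟨C + B * (Real.sqrt n0 / Real.log 2), by
    have : 0 < Real.log 2 := Real.log_pos (by norm_num)
    positivity, fun n hn => ?_⟩
  have hr := rho_nonneg n
  have hc := one_le_c n
  have hl2 : 0 < Real.log 2 := Real.log_pos (by norm_num)
  rcases Nat.lt_or_ge n n0 with hlt | hge
  · have h1 := rho_small hn hlt.le
    have h2 : (TH795.EP.c (n + 2) : ℝ) + H981.mu ^ 2 * TH795.EP.c n ≤ B := by
      rw [hB]
      exact Finset.single_le_sum (f := fun m : ℕ => (TH795.EP.c (m + 2) : ℝ) +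
        H981.mu ^ 2 * TH795.EP.c m) (fun m _ => hterm m) (Finset.mem_range.2 (by omega))
    have h3 : ∑ x ∈ box (n + 2), |(TH795.EP.a (n + 2) x.1 x.2 : ℝ) -
        H981.mu ^ 2 * TH795.EP.a n x.1 x.2| ≤
        (TH795.EP.c (n + 2) : ℝ) + H981.mu ^ 2 * TH795.EP.c n := by
      rw [← sum_aR (le_refl (n + 2)), ← sum_aR (show n ≤ n + 2 by omega), Finset.mul_sum,
        ← Finset.sum_add_distrib]
      refine Finset.sum_le_sum (fun x _ => ?_)
      have e1 : (0 : ℝ) ≤ TH795.EP.a (n + 2) x.1 x.2 := Nat.cast_nonneg _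
      have e2 : (0 : ℝ) ≤ H981.mu ^ 2 * TH795.EP.a n x.1 x.2 := by positivity
      rw [abs_le]
      constructor <;> linarith
    have h4 : 1 ≤ Real.sqrt n0 / Real.log 2 * rho n * TH795.EP.c n := by
      exact one_le_mul_of_one_le_of_one_le h1 hc
    calc _ ≤ (TH795.EP.c (n + 2) : ℝ) + H981.mu ^ 2 * TH795.EP.c n := h3
      _ ≤ B * 1 := by linarith
      _ ≤ B * (Real.sqrt n0 / Real.log 2 * rho n * TH795.EP.c n) := by gcongr
      _ ≤ (C + B * (Real.sqrt n0 / Real.log 2)) * rho n * TH795.EP.c n := by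
          have : 0 ≤ C * rho n * TH795.EP.c n := by positivity
          nlinarith
  · refine (h n hge).trans ?_
    have : 0 ≤ B * (Real.sqrt n0 / Real.log 2) := by positivity
    gcongr
    linarith

/-- **total variation** -/
theorem tv : ∃ C : ℝ, 0 ≤ C ∧ ∀ n : ℕ, 2 ≤ n →
    ∑ x ∈ box (n + 2), |Pw (n + 2) x - Pw n x| ≤ C * rho n := by
  obtain ⟨C, hC, h⟩ := l1
  have hmu := H981.one_le_mu
  have hmu0 := H981.mu_pos
  have hrho : Filter.Tendsto (fun n : ℕ => C * rho n) Filter.atTop (nhds 0) := by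
    have h1 : (fun x : ℝ => Real.log x) =o[Filter.atTop] fun x => x ^ (1 / 2 : ℝ) :=
      isLittleO_log_rpow_atTop (by norm_num)
    have h2 := (h1.tendsto_div_nhds_zero.comp tendsto_natCast_atTop_atTop).const_mul C
    rw [mul_zero] at h2
    refine h2.congr (fun n => ?_)
    unfold rho
    simp only [Function.comp, Real.sqrt_eq_rpow]
  obtain ⟨n1, hn1⟩ := Filter.eventually_atTop.1
    (hrho.eventually (gt_mem_nhds (show (0 : ℝ) < 1 / 2 by norm_num)))
  refine ⟨4 * C + 2 * (Real.sqrt n1 / Real.log 2), by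
    have : 0 < Real.log 2 := Real.log_pos (by norm_num)
    positivity, fun n hn => ?_⟩
  have hr := rho_nonneg n
  have hc := one_le_c n
  have hc2 := one_le_c (n + 2)
  have hl2 : 0 < Real.log 2 := Real.log_pos (by norm_num)
  have hq : 0 ≤ Real.sqrt n1 / Real.log 2 := by positivity
  rcases Nat.lt_or_ge n n1 with hlt | hge
  · have h1 := rho_small hn hlt.le
    have h3 : ∑ x ∈ box (n + 2), |Pw (n + 2) x - Pw n x| ≤ 1 + 1 := by
      nth_rewrite 2 [← sum_Pw (le_refl (n + 2))]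
      rw [← sum_Pw (show n ≤ n + 2 by omega), ← Finset.sum_add_distrib]
      refine Finset.sum_le_sum (fun x _ => ?_)
      have e1 := Pw_nonneg n x
      have e2 := Pw_nonneg (n + 2) x
      rw [abs_le]
      constructor <;> linarith
    have h4 : 0 ≤ 4 * C * rho n := by positivity
    rw [add_mul]
    linarith
  · have hs := hn1 n hge
    have h1 := h n hn
    obtain ⟨S, hS⟩ : ∃ S, S = ∑ x ∈ box (n + 2), |(TH795.EP.a (n + 2) x.1 x.2 : ℝ) -
      H981.mu ^ 2 * TH795.EP.a n x.1 x.2| := ⟨_, rfl⟩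
    rw [← hS] at h1
    have htot : |(TH795.EP.c (n + 2) : ℝ) - H981.mu ^ 2 * TH795.EP.c n| ≤ S := by
      rw [hS, ← sum_aR (le_refl (n + 2)), ← sum_aR (show n ≤ n + 2 by omega), Finset.mul_sum,
        ← Finset.sum_sub_distrib]
      exact Finset.abs_sum_le_sum_abs _ _
    have hSc : S ≤ 1 / 2 * TH795.EP.c n := by
      refine h1.trans ?_
      gcongr
    have hc2n : (TH795.EP.c n : ℝ) ≤ 2 * TH795.EP.c (n + 2) := by
      have e1 := (abs_le.1 htot).1
      have e2 : (TH795.EP.c n : ℝ) ≤ H981.mu ^ 2 * TH795.EP.c n :=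
        le_mul_of_one_le_left (by linarith) (one_le_pow₀ hmu)
      linarith
    have hpt : ∀ x : ℤ × ℤ, |Pw (n + 2) x - Pw n x| ≤
        |(TH795.EP.a (n + 2) x.1 x.2 : ℝ) - H981.mu ^ 2 * TH795.EP.a n x.1 x.2| /
          TH795.EP.c (n + 2) + (S / TH795.EP.c (n + 2)) * Pw n x := by
      intro x
      have e : Pw (n + 2) x - Pw n x =
          ((TH795.EP.a (n + 2) x.1 x.2 : ℝ) - H981.mu ^ 2 * TH795.EP.a n x.1 x.2) /
            TH795.EP.c (n + 2) -
          (((TH795.EP.c (n + 2) : ℝ) - H981.mu ^ 2 * TH795.EP.c n) / TH795.EP.c (n + 2)) *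
            Pw n x := by
        unfold Pw
        field_simp
        ring
      rw [e]
      refine (abs_sub _ _).trans ?_
      rw [abs_mul, abs_div, abs_div, abs_of_pos (show 0 < (TH795.EP.c (n + 2) : ℝ) by linarith),
        abs_of_nonneg (Pw_nonneg n x)]
      have := Pw_nonneg n x
      gcongr
    have hsum : ∑ x ∈ box (n + 2), |Pw (n + 2) x - Pw n x| ≤ 2 * (S / TH795.EP.c (n + 2)) := by
      refine (Finset.sum_le_sum fun x _ => hpt x).trans (le_of_eq ?_)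
      rw [Finset.sum_add_distrib, ← Finset.sum_div, ← Finset.mul_sum,
        sum_Pw (show n ≤ n + 2 by omega), ← hS]
      ring
    have h5 : S / TH795.EP.c (n + 2) ≤ 2 * C * rho n := by
      rw [div_le_iff₀ (by linarith)]
      calc S ≤ C * rho n * TH795.EP.c n := h1
        _ ≤ C * rho n * (2 * TH795.EP.c (n + 2)) := by gcongr
        _ = _ := by ring
    have h6 : 0 ≤ 2 * (Real.sqrt n1 / Real.log 2) * rho n := by positivity
    rw [add_mul]
    linarith

end Pool.Agent.TH262.RX
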