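import Pool.Agent.TH262.RX.Gen
import Pool.Agent.H976R2.Paths
import Pool.Agent.TH262.SawE.Gauss

/-!
# The number of walks to a point as the sum of an insertion-invariant weight
-/

set_option autoImplicit false
set_option linter.unusedVariables false

namespace Pool.Agent.TH262.RX

open Finset Pool.Agent.H976R2
open scoped Classical

/-- the indicator of the end point -/
noncomputable def phi (x : ℤ × ℤ) (w : List Dir) : ℝ := if (wX w, wY w) = x then 1 else 0

lemma inv_phi (x : ℤ × ℤ) : Inv (phi x) where
  nn := fun w => by unfold phi; split_ifs <;> norm_num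
  le := fun w => by unfold phi; split_ifs <;> norm_num
  inv := fun w p hp => by
    have hi := (mem_adm.mp (show (p.1, p.2) ∈ adm w from hp)).1
    unfold phi
    rw [wX_ins p.2 hi, wY_ins p.2 hi]

lemma inv_one : Inv (fun _ => 1) where
  nn := fun w => by norm_num
  le := fun w => le_rfl
  inv := fun w p hp => rfl

lemma mom_phi (x : ℤ × ℤ) (n : ℕ) : mom (phi x) n = (TH795.EP.a n x.1 x.2 : ℝ) := by
  have h1 : mom (phi x) n = (((SW n).filter (fun w => pth n w (Fin.last n) = x)).card : ℝ) := by
    unfold mom phi
    rw [Finset.card_filter]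
    push_cast
    refine Finset.sum_congr rfl (fun w hw => ?_)
    rw [pth_last hw]
  have h2 := ncard_saw_filter n (fun ω => ω (Fin.last n) = x)
  have h3 : {ω | IsSAW n ω ∧ ω (Fin.last n) = x}.ncard = TH795.EP.a n x.1 x.2 := by
    rw [← TH795.EP.card_walks_to n x, ← Nat.card_coe_set_eq]
    rfl
  rw [h1, ← h3]
  norm_cast
  convert h2.symm

lemma mom_one (n : ℕ) : mom (fun _ => 1) n = (TH795.EP.c n : ℝ) := by
  have h1 : mom (fun _ => 1) n = ((SW n).card : ℝ) := by
    unfold mom
    simp
  rw [h1, ← ncard_saw n, ← TH795.EP.card_walks n, ← Nat.card_coe_set_eq]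
  rfl

end Pool.Agent.TH262.RX
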