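import Pool.Agent.H739K.RATIO
import Pool.Agent.H976R2.KMom

/-!
# Approximate logarithmic convexity for sums over self-avoiding walks of a weight that is exactly
invariant under insertions (the argument of `H739K.SWR`, with an explicit hypothesis on the words
with few bumps instead of a lower bound for the weight)
-/

set_option autoImplicit false
set_option linter.unusedVariables false

namespace Pool.Agent.TH262.RX

open Finset Pool.Agent.H976R2
open scoped Classical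

open Pool.Agent.H739K.RATIO (transfer')

/-- weights on walks that are invariant under insertions -/
structure Inv (φ : List Dir → ℝ) : Prop where
  nn : ∀ w : List Dir, 0 ≤ φ w
  le : ∀ w : List Dir, φ w ≤ 1
  inv : ∀ w : List Dir, ∀ p ∈ adm w, φ (ins w p.1 p.2) = φ w

variable {φ : List Dir → ℝ}

lemma mom_nonneg (h : Inv φ) (n : ℕ) : 0 ≤ mom φ n := Finset.sum_nonneg (fun w _ => h.nn w)

lemma few_sum (h : Inv φ) (m : ℕ) : ∑ w' ∈ few m, |φ w'| ≤ ((few m).card : ℝ) := by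
  calc ∑ w' ∈ few m, |φ w'| ≤ ∑ w' ∈ few m, (1 : ℝ) := by
        refine Finset.sum_le_sum (fun w' _ => ?_)
        rw [abs_of_nonneg (h.nn w')]
        exact h.le w'
    _ = _ := by simp

/-- first step: the total weight -/
theorem step1 {F : ℝ} (hF : 0 ≤ F) (h : Inv φ) {m : ℕ} (hm : 2 ≤ m)
    (hfew : ((few (m + 2)).card : ℝ) ≤ F / m * mom φ m) :
    |mom φ (m + 2) - ∑ w ∈ SW m, φ w * RR w| ≤ (F + 50000000) / m * mom φ m := by
  have hm' : (2 : ℝ) ≤ m := by exact_mod_cast hm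
  have h0 := transfer' m (by omega) φ φ (fun _ => 0) (by
    intro w hw
    refine le_of_eq (Finset.sum_eq_zero (fun p hp => ?_))
    rw [h.inv w p hp]; simp)
  have hmom : ∀ k, ∑ w ∈ SW k, φ w = mom φ k := fun k => rfl
  rw [hmom] at h0
  refine h0.trans ?_
  have h1 : ∑ w ∈ SW m, (2000 / (m : ℝ) * (0 : ℝ) + 50000000 / (m : ℝ) * |φ w|) =
      50000000 / m * mom φ m := by
    rw [← hmom m, Finset.mul_sum]
    refine Finset.sum_congr rfl (fun w hw => ?_)
    rw [abs_of_nonneg (h.nn w)]; ring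
  rw [h1]
  have h2 := (few_sum h (m + 2)).trans hfew
  calc 50000000 / m * mom φ m + ∑ w' ∈ few (m + 2), |φ w'|
      ≤ 50000000 / m * mom φ m + F / m * mom φ m := by gcongr
    _ = (F + 50000000) / m * mom φ m := by ring

/-- second step -/
theorem step2 {F : ℝ} (hF : 0 ≤ F) (h : Inv φ) {n : ℕ} (hn : 2 ≤ n)
    (hfew : ((few (n + 2)).card : ℝ) ≤ F / n * mom φ n) :
    |∑ w ∈ SW (n + 2), φ w * RR w - ∑ w ∈ SW n, φ w * RR w ^ 2| ≤
      (4000 * F + 4000 * 50000000 + 2000 * 100000000) / n * mom φ n := by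
  have hn' : (2 : ℝ) ≤ n := by exact_mod_cast hn
  have hmom : ∀ k, ∑ w ∈ SW k, φ w = mom φ k := fun k => rfl
  have h0 := transfer' n (by omega) (fun w => φ w * RR w) (fun w => φ w * RR w)
    (fun w => 100000000 * φ w) (by
    intro w hw
    obtain ⟨hl, hs⟩ := mem_SW.mp hw
    have hP0 := h.nn w
    have h1 : ∑ p ∈ adm w, |φ (ins w p.1 p.2) * RR (ins w p.1 p.2) - φ w * RR w| ≤
        ∑ p ∈ adm w, (φ w * (50000000 / (n : ℝ))) := by
      refine Finset.sum_le_sum (fun p hp => ?_)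
      have hp' : (p.1, p.2) ∈ adm w := hp
      have hR := RR_ins hs hp'
      rw [hl] at hR
      rw [h.inv w p hp, ← mul_sub, abs_mul, abs_of_nonneg hP0]
      gcongr
    refine h1.trans ?_
    rw [Finset.sum_const, nsmul_eq_mul]
    have h6 : ((adm w).card : ℝ) ≤ 2 * n := by
      have : (AA w : ℝ) ≤ 2 * w.length := by exact_mod_cast AA_le w
      rw [hl] at this
      exact this
    calc ((adm w).card : ℝ) * (φ w * (50000000 / (n : ℝ)))
        ≤ (2 * n) * (φ w * (50000000 / (n : ℝ))) := by gcongr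
      _ = 100000000 * φ w := by field_simp; ring)
  have e0 : ∑ w ∈ SW n, φ w * RR w * RR w = ∑ w ∈ SW n, φ w * RR w ^ 2 :=
    Finset.sum_congr rfl (fun w _ => by ring)
  rw [e0] at h0
  refine h0.trans ?_
  have h1 : ∑ w ∈ SW n, (2000 / (n : ℝ) * (100000000 * φ w) +
      50000000 / (n : ℝ) * |φ w * RR w|) ≤
      (4000 * 50000000 + 2000 * 100000000) / (n : ℝ) * mom φ n := by
    rw [← hmom n, Finset.mul_sum]
    refine Finset.sum_le_sum (fun w hw => ?_)
    have hp := h.nn w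
    rw [abs_mul, abs_of_nonneg hp, abs_of_nonneg (RR_nonneg w)]
    have hR := RR_le (w := w) (by rw [(mem_SW.mp hw).1]; omega)
    calc 2000 / (n : ℝ) * (100000000 * φ w) + 50000000 / (n : ℝ) * (φ w * RR w)
        ≤ 2000 / (n : ℝ) * (100000000 * φ w) +
          50000000 / (n : ℝ) * (φ w * 4000) := by gcongr
      _ = (4000 * 50000000 + 2000 * 100000000) / (n : ℝ) * φ w := by ring
  have h2 : ∑ w' ∈ few (n + 2), |φ w' * RR w'| ≤ 4000 * (F / n) * mom φ n := by
    calc ∑ w' ∈ few (n + 2), |φ w' * RR w'| ≤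
          ∑ w' ∈ few (n + 2), 4000 * |φ w'| := by
          refine Finset.sum_le_sum (fun w' hw' => ?_)
          have hw'' : w' ∈ SW (n + 2) := (Finset.mem_filter.mp hw').1
          obtain ⟨hl, hs⟩ := mem_SW.mp hw''
          rw [abs_mul, abs_of_nonneg (RR_nonneg w')]
          have hR := RR_le (w := w') (by rw [hl]; omega)
          calc |φ w'| * RR w' ≤ |φ w'| * 4000 := by gcongr
            _ = 4000 * |φ w'| := by ring
      _ = 4000 * ∑ w' ∈ few (n + 2), |φ w'| := by rw [Finset.mul_sum]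
      _ ≤ 4000 * (F / n * mom φ n) := by
          have := (few_sum h (n + 2)).trans hfew
          gcongr
      _ = _ := by ring
  calc _ ≤ (4000 * 50000000 + 2000 * 100000000) / (n : ℝ) * mom φ n +
          4000 * (F / n) * mom φ n := by gcongr
    _ = _ := by ring

/-- the constant of the ratio inequality -/
noncomputable def DD (F : ℝ) : ℝ := (F + 50000000) * (4000 + (F + 50000000)) +
  (4000 * F + 4000 * 50000000 + 2000 * 100000000) + 8000 * (F + 50000000) + (F + 50000000) ^ 2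

lemma one_le_DD {F : ℝ} (hF : 0 ≤ F) : 1 ≤ DD F := by
  unfold DD
  nlinarith

/-- approximate logarithmic convexity -/
theorem ratio {F : ℝ} (hF : 0 ≤ F) (h : Inv φ) {n : ℕ} (hn : 2 ≤ n)
    (hfew : ((few (n + 2)).card : ℝ) ≤ F / n * mom φ n)
    (hfew2 : ((few (n + 2 + 2)).card : ℝ) ≤ F / ((n + 2 : ℕ) : ℝ) * mom φ (n + 2)) :
    mom φ (n + 2) ^ 2 ≤ mom φ n * mom φ (n + 4) + DD F / n * mom φ n ^ 2 := by
  have hn' : (2 : ℝ) ≤ n := by exact_mod_cast hn
  have hn0 : (0 : ℝ) < n := by linarith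
  have hM0 : 0 ≤ mom φ n := mom_nonneg h n
  have hM2 : 0 ≤ mom φ (n + 2) := mom_nonneg h _
  have hM4 : 0 ≤ mom φ (n + 4) := mom_nonneg h _
  set S1 := ∑ w ∈ SW n, φ w * RR w with hS1
  set S2 := ∑ w ∈ SW n, φ w * RR w ^ 2 with hS2
  have hS1le : S1 ≤ 4000 * mom φ n := by
    unfold mom
    rw [Finset.mul_sum]
    refine Finset.sum_le_sum (fun w hw => ?_)
    have h0 := h.nn w
    have hR := RR_le (w := w) (by rw [(mem_SW.mp hw).1]; omega)
    nlinarith
  have hS10 : 0 ≤ S1 := Finset.sum_nonneg (fun w hw => mul_nonneg (h.nn w) (RR_nonneg w))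
  have g1 := step1 hF h hn hfew
  have g3 := step1 hF h (show 2 ≤ n + 2 by omega) hfew2
  have g2 := step2 hF h hn hfew
  obtain ⟨D1, hD1⟩ : ∃ D1, D1 = F + 50000000 := ⟨_, rfl⟩
  obtain ⟨D2, hD2⟩ : ∃ D2, D2 = 4000 * F + 4000 * 50000000 + 2000 * 100000000 := ⟨_, rfl⟩
  have hDD : DD F = D1 * (4000 + D1) + D2 + 8000 * D1 + D1 ^ 2 := by rw [hD1, hD2]; rfl
  have hD10 : 0 ≤ D1 := by rw [hD1]; linarith
  have hD20 : 0 ≤ D2 := by rw [hD2]; linarith
  rw [hDD]
  rw [← hD1] at g1 g3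
  rw [← hD2] at g2
  have e24 : n + 2 + 2 = n + 4 := by ring
  rw [e24] at g3
  have hd : D1 / n ≤ D1 := div_le_self hD10 (by linarith)
  have hdn : 0 ≤ D1 / n := by positivity
  have k1 : mom φ (n + 2) ≤ S1 + D1 / n * mom φ n := by
    have := (abs_le.mp g1).2; linarith
  have k1' : mom φ (n + 2) ≤ (4000 + D1) * mom φ n := by
    have : D1 / n * mom φ n ≤ D1 * mom φ n := by gcongr
    linarith
  have k4' : |mom φ (n + 4) - S2| ≤ (D1 * (4000 + D1) + D2) / n * mom φ n := by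
    have g4 : D1 / ((n + 2 : ℕ) : ℝ) * mom φ (n + 2) ≤ D1 / n * ((4000 + D1) * mom φ n) := by
      gcongr
      push_cast; linarith
    calc |mom φ (n + 4) - S2|
        ≤ |mom φ (n + 4) - ∑ w ∈ SW (n + 2), φ w * RR w| +
          |∑ w ∈ SW (n + 2), φ w * RR w - S2| := abs_sub_le _ _ _
      _ ≤ D1 / n * ((4000 + D1) * mom φ n) + D2 / n * mom φ n := by linarith
      _ = _ := by ring
  have hcs : S1 ^ 2 ≤ mom φ n * S2 := by
    have := Finset.sum_mul_sq_le_sq_mul_sq (SW n) (fun w => Real.sqrt (φ w))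
      (fun w => Real.sqrt (φ w) * RR w)
    have e1 : ∑ w ∈ SW n, Real.sqrt (φ w) * (Real.sqrt (φ w) * RR w) = S1 := by
      refine Finset.sum_congr rfl (fun w hw => ?_)
      rw [← mul_assoc, Real.mul_self_sqrt (h.nn w)]
    have e2 : ∑ w ∈ SW n, Real.sqrt (φ w) ^ 2 = mom φ n := by
      refine Finset.sum_congr rfl (fun w hw => ?_)
      rw [Real.sq_sqrt (h.nn w)]
    have e3 : ∑ w ∈ SW n, (Real.sqrt (φ w) * RR w) ^ 2 = S2 := by
      refine Finset.sum_congr rfl (fun w hw => ?_)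
      rw [mul_pow, Real.sq_sqrt (h.nn w)]
    rw [e1, e2, e3] at this
    exact this
  have k2 : mom φ (n + 2) ^ 2 ≤ (S1 + D1 / n * mom φ n) ^ 2 := by
    gcongr
  have k3 : (S1 + D1 / n * mom φ n) ^ 2 ≤ mom φ n * S2 + (8000 * D1 + D1 ^ 2) / n * mom φ n ^ 2 := by
    have e : (S1 + D1 / n * mom φ n) ^ 2 = S1 ^ 2 + 2 * S1 * (D1 / n * mom φ n) +
        (D1 / n) * (D1 / n) * mom φ n ^ 2 := by ring
    have i1 : 2 * S1 * (D1 / n * mom φ n) ≤ 2 * (4000 * mom φ n) * (D1 / n * mom φ n) := by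
      gcongr
    have i2 : (D1 / n) * (D1 / n) * mom φ n ^ 2 ≤ (D1 / n) * D1 * mom φ n ^ 2 := by gcongr
    have e2 : (8000 * D1 + D1 ^ 2) / n * mom φ n ^ 2 = 2 * (4000 * mom φ n) * (D1 / n * mom φ n) +
        (D1 / n) * D1 * mom φ n ^ 2 := by ring
    rw [e, e2]
    linarith
  have k4 : mom φ n * S2 ≤ mom φ n * mom φ (n + 4) +
      (D1 * (4000 + D1) + D2) / n * mom φ n ^ 2 := by
    have : S2 ≤ mom φ (n + 4) + (D1 * (4000 + D1) + D2) / n * mom φ n := by
      have := (abs_le.mp k4').1; linarith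
    calc mom φ n * S2 ≤ mom φ n * (mom φ (n + 4) + (D1 * (4000 + D1) + D2) / n * mom φ n) := by
          gcongr
      _ = _ := by ring
  have e5 : (D1 * (4000 + D1) + D2 + 8000 * D1 + D1 ^ 2) / n * mom φ n ^ 2 =
      (D1 * (4000 + D1) + D2) / n * mom φ n ^ 2 + (8000 * D1 + D1 ^ 2) / n * mom φ n ^ 2 := by ring
  rw [e5]
  linarith

end Pool.Agent.TH262.RX
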