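import Pool.Agent.TH262.RX.L1

/-!
# The one-step ratio along sparse lengths
-/

set_option autoImplicit false
set_option linter.unusedVariables false

namespace Pool.Agent.TH262.RX

open Finset Filter Topology

lemma rho_anti {i j : ℕ} (hi : 8 ≤ i) (hij : i ≤ j) : rho j ≤ rho i := by
  have h := Real.log_div_sqrt_antitoneOn
  have e : Real.exp 2 ≤ 8 := by
    have h1 := Real.exp_one_lt_d9
    have h2 : Real.exp 2 = Real.exp 1 * Real.exp 1 := by rw [← Real.exp_add]; norm_num
    rw [h2]
    nlinarith [Real.exp_pos 1]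
  have hi' : Real.exp 2 ≤ (i : ℝ) := e.trans (by exact_mod_cast hi)
  have hj' : Real.exp 2 ≤ (j : ℝ) := hi'.trans (by exact_mod_cast hij)
  exact h hi' hj' (by exact_mod_cast hij)

/-- a sequence with slowly varying increments is determined by sparse indices -/
theorem sparse {D : ℕ → ℝ} {K : ℝ} (hK : 0 ≤ K) {N0 : ℕ}
    (h : ∀ n : ℕ, N0 ≤ n → |D (n + 1) - D n| ≤ K * rho n) {s : ℕ → ℕ} (hs : Tendsto s atTop atTop)
    (hgap : Tendsto (fun k => |(s (k + 1) : ℝ) - s k| * rho (s k)) atTop (𝓝 0)) {ℓ : ℝ}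
    (hl : Tendsto (fun k => D (s k)) atTop (𝓝 ℓ)) : Tendsto D atTop (𝓝 ℓ) := by
  rw [Metric.tendsto_atTop]
  intro ε hε
  have e1 := Metric.tendsto_atTop.1 hl (ε / 2) (by positivity)
  have e2 := (hgap.const_mul K)
  rw [mul_zero] at e2
  have e2' := e2.eventually (gt_mem_nhds (show (0 : ℝ) < ε / 2 by positivity))
  obtain ⟨k1, hk1⟩ := e1
  obtain ⟨k2, hk2⟩ := Filter.eventually_atTop.1 e2'
  obtain ⟨k3, hk3⟩ := Filter.eventually_atTop.1 (hs.eventually_ge_atTop (N0 + 8))
  obtain ⟨k0, hk0⟩ : ∃ k0, k0 = k1 + k2 + k3 := ⟨_, rfl⟩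
  refine ⟨s k0, fun n hn => ?_⟩
  -- the last index below `n`
  obtain ⟨m, hm⟩ := Filter.eventually_atTop.1 (hs.eventually_gt_atTop n)
  obtain ⟨k, hk, hkn, hkn'⟩ : ∃ k, k0 ≤ k ∧ s k ≤ n ∧ n < s (k + 1) := by
    by_contra hcon
    push Not at hcon
    have h3 : ∀ k, k0 ≤ k → s k ≤ n := by
      intro k hk
      induction k, hk using Nat.le_induction with
      | base => exact hn
      | succ k hk ih => exact hcon k hk ih
    have h4 := hm (max m k0) (le_max_left _ _)
    have h5 := h3 (max m k0) (le_max_right _ _)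
    omega
  have hs8 : N0 + 8 ≤ s k := hk3 k (by omega)
  have hstep : ∀ j : ℕ, |D (s k + j) - D (s k)| ≤ K * (j * rho (s k)) := by
    intro j
    induction j with
    | zero => simp
    | succ j ih =>
      have h5 := h (s k + j) (by omega)
      have h6 := rho_anti (show 8 ≤ s k by omega) (show s k ≤ s k + j by omega)
      calc |D (s k + (j + 1)) - D (s k)| ≤ |D (s k + j + 1) - D (s k + j)| +
            |D (s k + j) - D (s k)| := by
            rw [show s k + (j + 1) = s k + j + 1 by ring]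
            exact abs_sub_le _ _ _
        _ ≤ K * rho (s k) + K * (j * rho (s k)) := by
            have := mul_le_mul_of_nonneg_left h6 hK
            linarith
        _ = K * (((j + 1 : ℕ) : ℝ) * rho (s k)) := by push_cast; ring
  obtain ⟨j, hj⟩ : ∃ j, n = s k + j := ⟨n - s k, by omega⟩
  have h7 := hstep j
  rw [← hj] at h7
  have h8 : (j : ℝ) ≤ |(s (k + 1) : ℝ) - s k| := by
    have h9 : (s k : ℝ) + j ≤ s (k + 1) := by exact_mod_cast (by omega : s k + j ≤ s (k + 1))
    exact le_trans (by linarith) (le_abs_self _)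
  have h9 := hk2 k (by omega)
  have h10 := hk1 k (by omega)
  have h11 : K * (j * rho (s k)) ≤ K * (|(s (k + 1) : ℝ) - s k| * rho (s k)) := by
    have := rho_nonneg (s k)
    gcongr
  rw [Real.dist_eq] at h10 ⊢
  calc |D n - ℓ| ≤ |D n - D (s k)| + |D (s k) - ℓ| := abs_sub_le _ _ _
    _ < ε := by linarith

/-- the one-step ratio -/
noncomputable def rr (n : ℕ) : ℝ := (TH795.EP.c (n + 1) : ℝ) / TH795.EP.c n

lemma rr_pos (n : ℕ) : 0 < rr n := by
  have h1 := one_le_c n
  have h2 := one_le_c (n + 1)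
  unfold rr
  apply div_pos <;> linarith

/-- the two-step ratio -/
theorem two_step : ∃ C : ℝ, 0 ≤ C ∧ ∀ n : ℕ, 2 ≤ n →
    |(TH795.EP.c (n + 2) : ℝ) / TH795.EP.c n - H981.mu ^ 2| ≤ C * rho n := by
  obtain ⟨C, hC, h⟩ := l1
  refine ⟨C, hC, fun n hn => ?_⟩
  have h1 := h n hn
  have hc := one_le_c n
  have htot : |(TH795.EP.c (n + 2) : ℝ) - H981.mu ^ 2 * TH795.EP.c n| ≤ C * rho n * TH795.EP.c n := by
    refine le_trans ?_ h1
    rw [← sum_aR (le_refl (n + 2)), ← sum_aR (show n ≤ n + 2 by omega), Finset.mul_sum,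
      ← Finset.sum_sub_distrib]
    exact Finset.abs_sum_le_sum_abs _ _
  have e : (TH795.EP.c (n + 2) : ℝ) / TH795.EP.c n - H981.mu ^ 2 =
      ((TH795.EP.c (n + 2) : ℝ) - H981.mu ^ 2 * TH795.EP.c n) / TH795.EP.c n := by
    field_simp
  rw [e, abs_div, abs_of_pos (show 0 < (TH795.EP.c n : ℝ) by linarith),
    div_le_iff₀ (by linarith)]
  exact htot

lemma rho_tendsto : Tendsto rho atTop (𝓝 0) := by
  have h1 : (fun x : ℝ => Real.log x) =o[Filter.atTop] fun x => x ^ (1 / 2 : ℝ) :=
    isLittleO_log_rpow_atTop (by norm_num)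
  have h2 := (h1.tendsto_div_nhds_zero.comp tendsto_natCast_atTop_atTop)
  refine h2.congr (fun n => ?_)
  unfold rho
  simp only [Function.comp, Real.sqrt_eq_rpow]

/-- the signed logarithmic distance of the one-step ratio from the growth constant -/
noncomputable def DD' (n : ℕ) : ℝ := (-1) ^ n * (Real.log (rr n) - Real.log H981.mu)

lemma DD_step : ∃ K : ℝ, 0 ≤ K ∧ ∃ N0 : ℕ, ∀ n : ℕ, N0 ≤ n → |DD' (n + 1) - DD' n| ≤ K * rho n := by
  obtain ⟨C, hC, h⟩ := two_step
  have hmu1 := H981.one_le_mu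
  have hmu0 := H981.mu_pos
  have h0 := rho_tendsto.const_mul C
  rw [mul_zero] at h0
  obtain ⟨N, hN⟩ := Filter.eventually_atTop.1
    (h0.eventually (gt_mem_nhds (show (0 : ℝ) < 1 / 2 by norm_num)))
  refine ⟨2 * C, by positivity, max N 2, fun n hn => ?_⟩
  have hs := hN n ((le_max_left _ _).trans hn)
  have h1 := h n ((le_max_right _ _).trans hn)
  have hr := rho_nonneg n
  have hp := rr_pos n
  have hp1 := rr_pos (n + 1)
  have hc := one_le_c n
  have hc1 := one_le_c (n + 1)
  have hc2 := one_le_c (n + 2)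
  obtain ⟨q, hq⟩ : ∃ q, q = (TH795.EP.c (n + 2) : ℝ) / TH795.EP.c n := ⟨_, rfl⟩
  rw [← hq] at h1
  have hprod : rr n * rr (n + 1) = q := by
    rw [hq]; unfold rr; field_simp
  have hsum : Real.log (rr n) + Real.log (rr (n + 1)) = Real.log q := by
    rw [← Real.log_mul hp.ne' hp1.ne', hprod]
  have hm2 : 1 ≤ H981.mu ^ 2 := one_le_pow₀ hmu1
  have hq1 := abs_le.1 h1
  have hq2 : 1 / 2 ≤ q := by linarith [hq1.1]
  have hq0 : 0 < q := by linarith
  have hlog : |Real.log q - 2 * Real.log H981.mu| ≤ 2 * C * rho n := by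
    have e : 2 * Real.log H981.mu = Real.log (H981.mu ^ 2) := by rw [Real.log_pow]; push_cast; ring
    rw [e, ← Real.log_div hq0.ne' (by positivity)]
    obtain ⟨t, ht⟩ : ∃ t, t = q / H981.mu ^ 2 := ⟨_, rfl⟩
    have ht1 : |t - 1| ≤ C * rho n := by
      have e2 : t - 1 = (q - H981.mu ^ 2) / H981.mu ^ 2 := by rw [ht]; field_simp
      rw [e2, abs_div, abs_of_pos (show 0 < H981.mu ^ 2 by positivity)]
      exact (div_le_self (abs_nonneg _) hm2).trans h1
    have ht2 := abs_le.1 ht1
    have ht3 : 1 / 2 ≤ t := by linarith [ht2.1]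
    rw [← ht, abs_le]
    constructor
    · have h3 : Real.log t = -Real.log t⁻¹ := by rw [Real.log_inv]; ring
      have h4 := Real.log_le_sub_one_of_pos (show 0 < t⁻¹ by positivity)
      have h5 : t⁻¹ - 1 ≤ 2 * (C * rho n) := by
        have e3 : t⁻¹ - 1 = (1 - t) / t := by field_simp
        rw [e3, div_le_iff₀ (by linarith)]
        have h6 : 0 ≤ C * rho n := by positivity
        nlinarith [ht2.1]
      rw [h3]
      linarith
    · have h4 := Real.log_le_sub_one_of_pos (show 0 < t by linarith)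
      have h6 : 0 ≤ C * rho n := by positivity
      linarith [ht2.2]
  have e3 : DD' (n + 1) - DD' n = -(-1) ^ n * (Real.log q - 2 * Real.log H981.mu) := by
    unfold DD'
    rw [← hsum, pow_succ]
    ring
  rw [e3, abs_mul, abs_neg, abs_pow, abs_neg, abs_one, one_pow, one_mul]
  exact hlog

/-- **the reduction** -/
theorem one_step {s : ℕ → ℕ} (hs : Tendsto s atTop atTop)
    (hgap : Tendsto (fun k => |(s (k + 1) : ℝ) - s k| * rho (s k)) atTop (𝓝 0))
    (hl : Tendsto (fun k => rr (s k)) atTop (𝓝 H981.mu)) : Tendsto rr atTop (𝓝 H981.mu) := by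
  obtain ⟨K, hK, N0, h⟩ := DD_step
  have hmu0 := H981.mu_pos
  have h1 : Tendsto (fun k => DD' (s k)) atTop (𝓝 0) := by
    have h2 : Tendsto (fun k => Real.log (rr (s k)) - Real.log H981.mu) atTop (𝓝 0) := by
      have h3 := (Real.continuousAt_log hmu0.ne').tendsto.comp hl
      have h4 := h3.sub_const (Real.log H981.mu)
      rw [sub_self] at h4
      exact h4
    apply squeeze_zero_norm (a := fun k => |Real.log (rr (s k)) - Real.log H981.mu|)
    · intro k
      unfold DD'
      rw [Real.norm_eq_abs, abs_mul, abs_pow, abs_neg, abs_one, one_pow, one_mul]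
    · have := h2.abs
      rw [abs_zero] at this
      exact this
  have h2 := sparse hK h hs hgap h1
  have h3 : Tendsto (fun n => Real.log (rr n)) atTop (𝓝 (Real.log H981.mu)) := by
    have h4 : Tendsto (fun n => Real.log (rr n) - Real.log H981.mu) atTop (𝓝 0) := by
      apply squeeze_zero_norm (a := fun n => |DD' n|)
      · intro n
        unfold DD'
        rw [Real.norm_eq_abs, abs_mul, abs_pow, abs_neg, abs_one, one_pow, one_mul]
      · have := h2.abs
        rw [abs_zero] at this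
        exact this
    have h5 := h4.add_const (Real.log H981.mu)
    rw [zero_add] at h5
    refine h5.congr (fun n => ?_)
    ring
  have h4 := (Real.continuous_exp.tendsto _).comp h3
  rw [Real.exp_log hmu0] at h4
  refine h4.congr (fun n => ?_)
  simp only [Function.comp]
  exact Real.exp_log (rr_pos n)

end Pool.Agent.TH262.RX
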