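import Pool.Agent.TH262.RX.All

/-!
# The total variation distance between the laws of the end points of `n` and `n + 2` steps
-/

set_option autoImplicit false
set_option linter.unusedVariables false

namespace Pool.Agent.TH262.RX

open Finset Pool.Agent.H976R2
open scoped Classical

/-- the probability of a point -/
noncomputable def Pw (n : ℕ) (x : ℤ × ℤ) : ℝ := (TH795.EP.a n x.1 x.2 : ℝ) / TH795.EP.c n

/-- the box -/
noncomputable def box (N : ℕ) : Finset (ℤ × ℤ) := Finset.Icc (-(N : ℤ)) N ×ˢ Finset.Icc (-(N : ℤ)) N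

/-- the Euclidean norm -/
noncomputable def nrm (x : ℤ × ℤ) : ℝ := Real.sqrt ((x.1 : ℝ) ^ 2 + (x.2 : ℝ) ^ 2)

lemma nrm_nonneg (x : ℤ × ℤ) : 0 ≤ nrm x := Real.sqrt_nonneg _

lemma nrm_sq (x : ℤ × ℤ) : nrm x ^ 2 = (x.1 : ℝ) ^ 2 + (x.2 : ℝ) ^ 2 := Real.sq_sqrt (by positivity)

lemma Pw_nonneg (n : ℕ) (x : ℤ × ℤ) : 0 ≤ Pw n x := by unfold Pw; positivity

lemma mem_box_of_pos {n N : ℕ} (hN : n ≤ N) {x : ℤ × ℤ} (h : Pw n x ≠ 0) : x ∈ box N := by
  have h1 : 0 < TH795.EP.a n x.1 x.2 := by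
    rcases Nat.eq_zero_or_pos (TH795.EP.a n x.1 x.2) with h2 | h2
    · exfalso
      apply h
      unfold Pw
      rw [h2]; simp
    · exact h2
  obtain ⟨w, hw⟩ := TH795.EP.exists_of_a h1
  obtain ⟨hs, hx, hy, hl⟩ : H981.Saw w ∧ H981.dx w = x.1 ∧ H981.dy w = x.2 ∧ w.length = n := by
    tauto
  have h2 := TH795.EP.abs_add_abs_le w
  rw [hx, hy, hl] at h2
  have h3 := abs_nonneg x.1
  have h4 := abs_nonneg x.2
  unfold box
  rw [Finset.mem_product, Finset.mem_Icc, Finset.mem_Icc]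
  have h5 := abs_le.1 (show |x.1| ≤ (N : ℤ) by omega)
  have h6 := abs_le.1 (show |x.2| ≤ (N : ℤ) by omega)
  exact ⟨⟨h5.1, h5.2⟩, ⟨h6.1, h6.2⟩⟩

/-- points that carry mass have the right parity and are not the origin -/
lemma par_of_pos {n : ℕ} (hn : 1 ≤ n) {x : ℤ × ℤ} (h : Pw n x ≠ 0) :
    (x.1 + x.2 - n) % 2 = 0 ∧ x ≠ 0 := by
  have h1 : 0 < TH795.EP.a n x.1 x.2 := by
    rcases Nat.eq_zero_or_pos (TH795.EP.a n x.1 x.2) with h2 | h2
    · exfalso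
      apply h
      unfold Pw
      rw [h2]; simp
    · exact h2
  obtain ⟨w, hw⟩ := TH795.EP.exists_of_a h1
  obtain ⟨hs, hx, hy, hl⟩ : H981.Saw w ∧ H981.dx w = x.1 ∧ H981.dy w = x.2 ∧ w.length = n := by
    tauto
  have h2 := TH795.EP.parity w
  rw [hx, hy, hl] at h2
  refine ⟨h2, ?_⟩
  rintro rfl
  have h3 := TH795.EP.one_le_nq hs (by rintro rfl; simp at hl; omega)
  unfold TH795.EP.nq at h3
  rw [hx, hy] at h3
  simp at h3

lemma sum_a {n N : ℕ} (hN : n ≤ N) : ∑ x ∈ box N, TH795.EP.a n x.1 x.2 = TH795.EP.c n := by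
  unfold TH795.EP.c
  rw [Finset.card_eq_sum_card_fiberwise (f := fun w => (H981.dx w, H981.dy w)) (t := box N)]
  · refine Finset.sum_congr rfl (fun x _ => ?_)
    unfold TH795.EP.a
    congr 1
    ext w
    rw [Finset.mem_filter, TH795.EP.mem_fs, TH795.EP.mem_fs]
    constructor
    · rintro ⟨⟨h1, h2, h3⟩, h4⟩
      exact ⟨⟨h1, h4⟩, Prod.ext h2 h3⟩
    · rintro ⟨⟨h1, h4⟩, h5⟩
      exact ⟨⟨h1, congrArg Prod.fst h5, congrArg Prod.snd h5⟩, h4⟩
  · intro w hw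
    rw [Finset.mem_coe, TH795.EP.mem_fs] at hw
    have h2 := TH795.EP.abs_add_abs_le w
    rw [hw.2] at h2
    have h3 := abs_nonneg (H981.dx w)
    have h4 := abs_nonneg (H981.dy w)
    have h5 := abs_le.1 (show |H981.dx w| ≤ (N : ℤ) by omega)
    have h6 := abs_le.1 (show |H981.dy w| ≤ (N : ℤ) by omega)
    unfold box
    rw [Finset.mem_coe, Finset.mem_product, Finset.mem_Icc, Finset.mem_Icc]
    exact ⟨⟨h5.1, h5.2⟩, ⟨h6.1, h6.2⟩⟩

lemma sum_Pw {n N : ℕ} (hN : n ≤ N) : ∑ x ∈ box N, Pw n x = 1 := by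
  unfold Pw
  rw [← Finset.sum_div, div_eq_one_iff_eq (by have := one_le_c n; linarith)]
  exact_mod_cast sum_a hN

/-- **The basic total variation bound.** -/
theorem tv_basic : ∃ κ : ℝ, 0 < κ ∧ κ ≤ 1 / 4 ∧ ∃ K : ℝ, 0 ≤ K ∧ ∀ n : ℕ, 1 ≤ n →
    ∑ x ∈ box (n + 2), |Pw (n + 2) x - Pw n x| ≤
      K * ∑ x ∈ (box (n + 2)).filter (fun x => x ≠ 0 ∧ nrm x ≤ κ * n),
        Real.sqrt (EE' n (nrm x) / n) * Pw n x +
      2 * ∑ x ∈ (box (n + 2)).filter (fun x => κ * n < nrm x), Pw n x := by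
  obtain ⟨κ, hκ, hκ4, K, hK, h⟩ := ratios
  refine ⟨κ, hκ, hκ4, 2 * K, by positivity, fun n hn => ?_⟩
  obtain ⟨Q, hQ⟩ : ∃ Q : ℤ × ℤ → Prop, Q = fun x : ℤ × ℤ => x ≠ 0 ∧ (x.1 + x.2 - (n : ℤ)) % 2 = 0 ∧
    nrm x ≤ κ * n := ⟨_, rfl⟩
  obtain ⟨S, hS⟩ : ∃ S : ℝ, S = ∑ x ∈ (box (n + 2)).filter Q,
    K * (Real.sqrt (EE' n (nrm x) / n) * Pw n x) := ⟨_, rfl⟩
  have hpt : ∀ x : ℤ × ℤ, Q x → |Pw (n + 2) x - Pw n x| ≤
      K * (Real.sqrt (EE' n (nrm x) / n) * Pw n x) := by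
    intro x hx
    rw [hQ] at hx
    obtain ⟨hx0, hpar, hr⟩ := hx
    obtain ⟨ha, -, h2⟩ := h n x.1 x.2 hx0 hpar (nrm x) (nrm_nonneg x) (nrm_sq x) hr
    have hc := one_le_c n
    have hP : 0 < Pw n x := by unfold Pw; positivity
    have e : Pw (n + 2) x - Pw n x = (Pw (n + 2) x / Pw n x - 1) * Pw n x := by
      field_simp
    rw [e, abs_mul, abs_of_pos hP]
    calc |Pw (n + 2) x / Pw n x - 1| * Pw n x ≤
          (K * Real.sqrt (EE' n (nrm x) / n)) * Pw n x := by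
          apply mul_le_mul_of_nonneg_right h2 hP.le
      _ = _ := by ring
  -- splitting
  have hsplit : ∀ f : ℤ × ℤ → ℝ, ∑ x ∈ box (n + 2), f x =
      ∑ x ∈ (box (n + 2)).filter Q, f x + ∑ x ∈ (box (n + 2)).filter (fun x => ¬ Q x), f x :=
    fun f => (Finset.sum_filter_add_sum_filter_not _ Q f).symm
  have h1 : ∑ x ∈ (box (n + 2)).filter Q, |Pw (n + 2) x - Pw n x| ≤ S := by
    rw [hS]
    exact Finset.sum_le_sum (fun x hx => hpt x (Finset.mem_filter.1 hx).2)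
  have h2 : ∑ x ∈ (box (n + 2)).filter Q, Pw n x - S ≤
      ∑ x ∈ (box (n + 2)).filter Q, Pw (n + 2) x := by
    rw [hS, ← Finset.sum_sub_distrib]
    refine Finset.sum_le_sum (fun x hx => ?_)
    have := (abs_le.1 (hpt x (Finset.mem_filter.1 hx).2)).1
    linarith
  have s1 := sum_Pw (show n ≤ n + 2 by omega)
  have s2 := sum_Pw (le_refl (n + 2))
  rw [hsplit] at s1 s2
  have h3 : ∑ x ∈ (box (n + 2)).filter (fun x => ¬ Q x), |Pw (n + 2) x - Pw n x| ≤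
      ∑ x ∈ (box (n + 2)).filter (fun x => ¬ Q x), Pw (n + 2) x +
      ∑ x ∈ (box (n + 2)).filter (fun x => ¬ Q x), Pw n x := by
    rw [← Finset.sum_add_distrib]
    refine Finset.sum_le_sum (fun x hx => ?_)
    have e1 := Pw_nonneg n x
    have e2 := Pw_nonneg (n + 2) x
    rw [abs_le]
    constructor <;> linarith
  have h4 : ∑ x ∈ (box (n + 2)).filter (fun x => ¬ Q x), Pw n x ≤
      ∑ x ∈ (box (n + 2)).filter (fun x => κ * n < nrm x), Pw n x := by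
    have e1 : ∑ x ∈ (box (n + 2)).filter (fun x => ¬ Q x), Pw n x =
        ∑ x ∈ (box (n + 2)).filter (fun x => ¬ Q x ∧ Pw n x ≠ 0), Pw n x := by
      rw [← Finset.filter_filter]
      rw [Finset.sum_filter_ne_zero]
    rw [e1]
    apply Finset.sum_le_sum_of_subset_of_nonneg
    · intro x hx
      rw [Finset.mem_filter] at hx ⊢
      obtain ⟨hb, hq, hp⟩ := hx
      refine ⟨hb, ?_⟩
      by_contra hcon
      push Not at hcon
      obtain ⟨p1, p2⟩ := par_of_pos hn hp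
      apply hq
      rw [hQ]
      exact ⟨p2, p1, hcon⟩
    · intro x _ _
      exact Pw_nonneg n x
  have h5 : S ≤ K * ∑ x ∈ (box (n + 2)).filter (fun x => x ≠ 0 ∧ nrm x ≤ κ * n),
        Real.sqrt (EE' n (nrm x) / n) * Pw n x := by
    rw [hS, ← Finset.mul_sum]
    apply mul_le_mul_of_nonneg_left _ hK
    apply Finset.sum_le_sum_of_subset_of_nonneg
    · intro x hx
      rw [Finset.mem_filter] at hx ⊢
      rw [hQ] at hx
      exact ⟨hx.1, hx.2.1, hx.2.2.2⟩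
    · intro x _ _
      exact mul_nonneg (Real.sqrt_nonneg _) (Pw_nonneg n x)
  rw [hsplit]
  linarith

end Pool.Agent.TH262.RX
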