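import Pool.Agent.TH262.RX.Tv
import Pool.Agent.H924P.Final

/-!
# Total variation: rates
-/

set_option autoImplicit false
set_option linter.unusedVariables false

namespace Pool.Agent.TH262.RX

open Finset Pool.Agent.H976R2 Filter Topology
open scoped Classical

lemma sqrt_log_ge {n : ℕ} (hn : 2 ≤ n) : 1 / 2 ≤ Real.sqrt (Real.log n ^ 3) := by
  apply Real.le_sqrt_of_sq_le
  have h1 : (0.69 : ℝ) ≤ Real.log n := by
    have h2 := TH795.EP.log_ge hn
    linarith [Real.log_two_gt_d9]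
  have h3 : (0.69 : ℝ) ^ 3 ≤ Real.log n ^ 3 := pow_le_pow_left₀ (by norm_num) h1 3
  norm_num at h3 ⊢
  linarith

lemma one_le_nrm {x : ℤ × ℤ} (hx : x ≠ 0) : 1 ≤ nrm x := by
  unfold nrm
  rw [Real.one_le_sqrt]
  by_contra hcon
  push Not at hcon
  have h2 : x.1 ^ 2 + x.2 ^ 2 < 1 := by exact_mod_cast hcon
  have h3 : x.1 = 0 := by nlinarith [sq_nonneg x.1, sq_nonneg x.2]
  have h4 : x.2 = 0 := by nlinarith [sq_nonneg x.1, sq_nonneg x.2]
  exact hx (Prod.ext h3 h4)

lemma sqrt_EE_le {n : ℕ} (hn : 2 ≤ n) {r : ℝ} (hr : 1 ≤ r) (hrn : r ≤ n) :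
    Real.sqrt (EE' n r / n) ≤ 3 * Real.sqrt (Real.log n ^ 3) * (1 / Real.sqrt n + r / n) := by
  have hr0 : 0 < r := by linarith
  have hnR : (2 : ℝ) ≤ n := by exact_mod_cast hn
  have hn0 : (0 : ℝ) < n := by linarith
  have h1 : 1 ≤ (n : ℝ) / r := by rw [le_div_iff₀ hr0, one_mul]; exact hrn
  have h2 := one_le_log_two_add h1
  have hL : 0 ≤ Real.log n := Real.log_nonneg (by linarith)
  have h3 : Real.log (2 + n / r) ≤ 2 * Real.log n := by
    calc Real.log (2 + n / r) ≤ Real.log ((n : ℝ) ^ 2) := by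
          apply Real.log_le_log (by linarith)
          have : (n : ℝ) / r ≤ n := div_le_self hn0.le hr
          nlinarith
      _ = _ := by rw [Real.log_pow]; push_cast; ring
  have h4 : Real.log (2 + n / r) ^ 3 ≤ 9 * Real.log n ^ 3 := by
    calc Real.log (2 + n / r) ^ 3 ≤ (2 * Real.log n) ^ 3 := pow_le_pow_left₀ (by linarith) h3 3
      _ = 8 * Real.log n ^ 3 := by ring
      _ ≤ 9 * Real.log n ^ 3 := by
          have : 0 ≤ Real.log n ^ 3 := by positivity
          linarith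
  have hsn : 0 < Real.sqrt n := Real.sqrt_pos.2 hn0
  have h5 : EE' n r / n ≤ 9 * Real.log n ^ 3 * (1 / Real.sqrt n + r / n) ^ 2 := by
    have h6 : (1 / Real.sqrt n + r / n) ^ 2 = 1 / n + 2 * (1 / Real.sqrt n * (r / n)) +
        (r / n) ^ 2 := by
      have e : (1 / Real.sqrt n) ^ 2 = 1 / n := by
        rw [div_pow, Real.sq_sqrt hn0.le]; norm_num
      rw [← e]; ring
    have h7 : (1 + r ^ 2 / n) / n ≤ (1 / Real.sqrt n + r / n) ^ 2 := by
      rw [h6]
      have e : (1 + r ^ 2 / n) / n = 1 / n + (r / n) ^ 2 := by field_simp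
      rw [e]
      have : 0 ≤ 1 / Real.sqrt n * (r / n) := by positivity
      linarith
    calc EE' n r / n = (1 + r ^ 2 / n) / n * Real.log (2 + n / r) ^ 3 := by unfold EE'; ring
      _ ≤ (1 / Real.sqrt n + r / n) ^ 2 * (9 * Real.log n ^ 3) := by gcongr
      _ = _ := by ring
  calc Real.sqrt (EE' n r / n) ≤ Real.sqrt (9 * Real.log n ^ 3 * (1 / Real.sqrt n + r / n) ^ 2) :=
        Real.sqrt_le_sqrt h5
    _ = _ := by
        rw [Real.sqrt_mul (by positivity), Real.sqrt_mul (by norm_num), Real.sqrt_sq (by positivity),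
          show (9 : ℝ) = 3 ^ 2 by norm_num, Real.sqrt_sq (by norm_num)]

/-- the mean distance -/
noncomputable def Mn (n : ℕ) : ℝ := ∑ x ∈ box (n + 2), nrm x * Pw n x

theorem tvA : ∃ K : ℝ, 0 ≤ K ∧ ∀ n : ℕ, 2 ≤ n →
    ∑ x ∈ box (n + 2), |Pw (n + 2) x - Pw n x| ≤
      K * (Real.sqrt (Real.log n ^ 3) * (1 / Real.sqrt n + Mn n / n)) := by
  obtain ⟨κ, hκ, hκ4, K, hK, h⟩ := tv_basic
  refine ⟨3 * K + 4 / κ, by positivity, fun n hn => ?_⟩
  have hnR : (2 : ℝ) ≤ n := by exact_mod_cast hn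
  have hn0 : (0 : ℝ) < n := by linarith
  have hs := sqrt_log_ge hn
  obtain ⟨s, hsdef⟩ : ∃ s, s = Real.sqrt (Real.log n ^ 3) := ⟨_, rfl⟩
  rw [← hsdef] at hs ⊢
  have hs0 : 0 ≤ s := by linarith
  have hM0 : 0 ≤ Mn n := Finset.sum_nonneg fun x _ => mul_nonneg (nrm_nonneg x) (Pw_nonneg n x)
  have hsn : 0 < Real.sqrt n := Real.sqrt_pos.2 hn0
  have h1 : ∑ x ∈ (box (n + 2)).filter (fun x => x ≠ 0 ∧ nrm x ≤ κ * n),
        Real.sqrt (EE' n (nrm x) / n) * Pw n x ≤ 3 * s * (1 / Real.sqrt n + Mn n / n) := by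
    calc ∑ x ∈ (box (n + 2)).filter (fun x => x ≠ 0 ∧ nrm x ≤ κ * n),
          Real.sqrt (EE' n (nrm x) / n) * Pw n x
        ≤ ∑ x ∈ (box (n + 2)).filter (fun x => x ≠ 0 ∧ nrm x ≤ κ * n),
          (3 * s * (1 / Real.sqrt n + nrm x / n)) * Pw n x := by
          refine Finset.sum_le_sum (fun x hx => ?_)
          obtain ⟨-, hx0, hr⟩ := Finset.mem_filter.1 hx
          have h2 : nrm x ≤ n := by nlinarith
          have h3 := sqrt_EE_le hn (one_le_nrm hx0) h2
          rw [← hsdef] at h3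
          exact mul_le_mul_of_nonneg_right h3 (Pw_nonneg n x)
      _ ≤ ∑ x ∈ box (n + 2), (3 * s * (1 / Real.sqrt n + nrm x / n)) * Pw n x := by
          apply Finset.sum_le_sum_of_subset_of_nonneg (Finset.filter_subset _ _)
          intro x _ _
          have := nrm_nonneg x
          have := Pw_nonneg n x
          positivity
      _ = 3 * s * (1 / Real.sqrt n * ∑ x ∈ box (n + 2), Pw n x + Mn n / n) := by
          unfold Mn
          rw [Finset.mul_sum, Finset.sum_div, ← Finset.sum_add_distrib, Finset.mul_sum]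
          refine Finset.sum_congr rfl (fun x _ => ?_)
          ring
      _ = _ := by rw [sum_Pw (by omega), mul_one]
  have h2 : ∑ x ∈ (box (n + 2)).filter (fun x => κ * n < nrm x), Pw n x ≤ Mn n / (κ * n) := by
    rw [le_div_iff₀ (by positivity)]
    unfold Mn
    rw [Finset.sum_mul]
    calc ∑ x ∈ (box (n + 2)).filter (fun x => κ * n < nrm x), Pw n x * (κ * n)
        ≤ ∑ x ∈ (box (n + 2)).filter (fun x => κ * n < nrm x), nrm x * Pw n x := by
          refine Finset.sum_le_sum (fun x hx => ?_)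
          have h3 := (Finset.mem_filter.1 hx).2
          rw [mul_comm]
          exact mul_le_mul_of_nonneg_right h3.le (Pw_nonneg n x)
      _ ≤ _ := by
          apply Finset.sum_le_sum_of_subset_of_nonneg (Finset.filter_subset _ _)
          intro x _ _
          exact mul_nonneg (nrm_nonneg x) (Pw_nonneg n x)
  refine (h n (by omega)).trans ?_
  have h3 : Mn n / (κ * n) ≤ (2 / κ) * (s * (Mn n / n)) := by
    have e : (2 / κ) * (s * (Mn n / n)) = (2 * s) * (Mn n / (κ * n)) := by field_simp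
    rw [e]
    exact le_mul_of_one_le_left (by positivity) (by linarith)
  calc K * ∑ x ∈ (box (n + 2)).filter (fun x => x ≠ 0 ∧ nrm x ≤ κ * n),
        Real.sqrt (EE' n (nrm x) / n) * Pw n x +
      2 * ∑ x ∈ (box (n + 2)).filter (fun x => κ * n < nrm x), Pw n x
      ≤ K * (3 * s * (1 / Real.sqrt n + Mn n / n)) + 2 * ((2 / κ) * (s * (Mn n / n))) := by
        have := h2.trans h3
        gcongr
    _ ≤ K * (3 * s * (1 / Real.sqrt n + Mn n / n)) +
        2 * ((2 / κ) * (s * (1 / Real.sqrt n + Mn n / n))) := by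
        gcongr
        have : 0 ≤ 1 / Real.sqrt (n : ℝ) := by positivity
        linarith
    _ = _ := by ring

/-- the mass far away -/
lemma far_sum (n : ℕ) (L : ℝ) :
    ∑ x ∈ (box (n + 2)).filter (fun x : ℤ × ℤ => L ≤ |(x.1 : ℝ)| ∨ L ≤ |(x.2 : ℝ)|), Pw n x ≤
    (Nat.card {ω : Fin (n + 1) → ℤ × ℤ // H981.IsSAW n ω ∧ Pool.Agent.H924P.Far n ω L} : ℝ) /
      TH795.EP.c n := by
  have h1 : Nat.card {ω : Fin (n + 1) → ℤ × ℤ // H981.IsSAW n ω ∧
      Pool.Agent.H924P.Far n ω L} = _ := TH795.EP.ncard_eq n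
        (fun w => Pool.Agent.H924P.Far n (TH795.EP.ew n w) L)
        (fun ω => Pool.Agent.H924P.Far n ω L) (fun w _ => Iff.rfl)
  rw [h1]
  unfold Pw
  rw [← Finset.sum_div]
  apply div_le_div_of_nonneg_right _ (Nat.cast_nonneg _)
  rw [← Nat.cast_sum]
  refine Nat.cast_le.2 ?_
  have h2 : ∑ x ∈ (box (n + 2)).filter (fun x : ℤ × ℤ => L ≤ |(x.1 : ℝ)| ∨ L ≤ |(x.2 : ℝ)|),
      TH795.EP.a n x.1 x.2 = ((TH795.EP.fs (fun w => H981.Saw w ∧
        (L ≤ |(H981.dx w : ℝ)| ∨ L ≤ |(H981.dy w : ℝ)|)) n)).card := by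
    rw [Finset.card_eq_sum_card_fiberwise (f := fun w => (H981.dx w, H981.dy w))
      (t := (box (n + 2)).filter (fun x : ℤ × ℤ => L ≤ |(x.1 : ℝ)| ∨ L ≤ |(x.2 : ℝ)|))]
    · refine Finset.sum_congr rfl (fun x hx => ?_)
      have hx' := (Finset.mem_filter.1 hx).2
      unfold TH795.EP.a
      congr 1
      ext w
      rw [Finset.mem_filter, TH795.EP.mem_fs, TH795.EP.mem_fs]
      constructor
      · rintro ⟨⟨h1, h2, h3⟩, h4⟩
        exact ⟨⟨⟨h1, by rw [h2, h3]; exact hx'⟩, h4⟩, Prod.ext h2 h3⟩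
      · rintro ⟨⟨h1, h4⟩, h5⟩
        exact ⟨⟨h1.1, congrArg Prod.fst h5, congrArg Prod.snd h5⟩, h4⟩
    · intro w hw
      rw [Finset.mem_coe, TH795.EP.mem_fs] at hw
      have h2 := TH795.EP.abs_add_abs_le w
      rw [hw.2] at h2
      have h3 := abs_nonneg (H981.dx w)
      have h4 := abs_nonneg (H981.dy w)
      have h5 := abs_le.1 (show |H981.dx w| ≤ ((n + 2 : ℕ) : ℤ) by push_cast; omega)
      have h6 := abs_le.1 (show |H981.dy w| ≤ ((n + 2 : ℕ) : ℤ) by push_cast; omega)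
      rw [Finset.mem_coe, Finset.mem_filter]
      refine ⟨?_, hw.1.2⟩
      unfold box
      rw [Finset.mem_product, Finset.mem_Icc, Finset.mem_Icc]
      exact ⟨⟨h5.1, h5.2⟩, ⟨h6.1, h6.2⟩⟩
  rw [h2]
  apply Finset.card_le_card
  intro w hw
  rw [TH795.EP.mem_fs] at hw ⊢
  refine ⟨⟨hw.1.1, ?_⟩, hw.2⟩
  refine ⟨Fin.last n, ?_⟩
  rw [TH795.EP.ew_last n hw.2]
  exact hw.1.2

/-- **The laws merge.** -/
theorem tvB : ∃ δ : ℝ, 0 < δ ∧ ∀ᶠ n : ℕ in atTop,
    ∑ x ∈ box (n + 2), |Pw (n + 2) x - Pw n x| ≤ 1 / Real.log n ^ δ := by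
  obtain ⟨κ, hκ, hκ4, K, hK, h⟩ := tv_basic
  obtain ⟨c, hc, hSB⟩ := Pool.Agent.H924P.subBall
  refine ⟨c / 4, by positivity, ?_⟩
  have hnn : Tendsto (fun n : ℕ => (n : ℝ)) atTop atTop := tendsto_natCast_atTop_atTop
  have hlogn : Tendsto (fun n : ℕ => Real.log (n : ℝ)) atTop atTop :=
    Real.tendsto_log_atTop.comp hnn
  have hs : Tendsto (fun n : ℕ => Real.sqrt (n : ℝ)) atTop atTop :=
    Real.tendsto_sqrt_atTop.comp hnn
  have E1 := hlogn.eventually_ge_atTop 1
  have E2 := ((tendsto_rpow_atTop hc).comp hlogn).eventually_ge_atTop (2 / κ)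
  have E3 := ((tendsto_rpow_atTop (show 0 < c / 4 by positivity)).comp
    hlogn).eventually_ge_atTop (26 * K + 1)
  have E4 : ∀ᶠ n : ℕ in atTop, 8 * Real.log n ^ (3 + c) ≤ n := by
    have h1 := (isLittleO_log_rpow_rpow_atTop (3 + c) (show (0 : ℝ) < 1 by norm_num)).def
      (show (0 : ℝ) < 1 / 8 by norm_num)
    filter_upwards [hnn.eventually h1, E1] with n hn hL
    rw [Real.rpow_one, Real.norm_of_nonneg (by positivity), Real.norm_of_nonneg (by positivity)] at hn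
    linarith
  have E5 : ∀ᶠ n : ℕ in atTop, Real.log n ≤ Real.sqrt n := by
    have h1 := (isLittleO_log_rpow_atTop (show (0 : ℝ) < 1 / 2 by norm_num)).def
      (show (0 : ℝ) < 1 by norm_num)
    filter_upwards [hnn.eventually h1, E1] with n hn hL
    rw [Real.norm_of_nonneg (by linarith), Real.norm_of_nonneg (by positivity), one_mul,
      ← Real.sqrt_eq_rpow] at hn
    exact hn
  have E6 : ∀ᶠ n : ℕ in atTop, (10 * K + 2) * (Real.sqrt n ^ (c / 4) *
      Real.exp (-Real.sqrt n)) ≤ 1 / 2 := by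
    have h1 := (tendsto_rpow_mul_exp_neg_mul_atTop_nhds_zero (c / 4) 1 one_pos)
    have h2 := (h1.comp hs).const_mul (10 * K + 2)
    rw [mul_zero] at h2
    filter_upwards [h2.eventually (gt_mem_nhds (show (0 : ℝ) < 1 / 2 by norm_num))] with n hn
    simp only [Function.comp, neg_mul, one_mul] at hn
    exact hn.le
  filter_upwards [hSB, E1, E2, E3, E4, E5, E6, eventually_ge_atTop 2] with n hSBn hL e2 e3 e4 e5 e6 hn2
  simp only [Function.comp] at e2 e3
  have hnR : (2 : ℝ) ≤ n := by exact_mod_cast hn2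
  have hn0 : (0 : ℝ) < n := by linarith
  have hL0 : 0 < Real.log n := by linarith
  have hLc : 0 < Real.log n ^ c := by positivity
  obtain ⟨R, hR⟩ : ∃ R, R = (n : ℝ) / Real.log n ^ c := ⟨_, rfl⟩
  have hR0 : 0 < R := by rw [hR]; positivity
  have h2R : 2 * R ≤ κ * n := by
    have h1 : 2 ≤ κ * Real.log n ^ c := by
      rw [div_le_iff₀ hκ] at e2
      linarith
    rw [hR, ← mul_div_assoc, div_le_iff₀ hLc]
    nlinarith
  obtain ⟨Fr, hFr⟩ : ∃ Fr : ℤ × ℤ → Prop, Fr = fun x : ℤ × ℤ => R ≤ |(x.1 : ℝ)| ∨ R ≤ |(x.2 : ℝ)| :=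
    ⟨_, rfl⟩
  obtain ⟨ex, hex⟩ : ∃ ex, ex = Real.exp (-Real.sqrt n) := ⟨_, rfl⟩
  have hex0 : 0 < ex := by rw [hex]; exact Real.exp_pos _
  have hc1 := one_le_c n
  have hfar : ∑ x ∈ (box (n + 2)).filter Fr, Pw n x ≤ ex := by
    have hfs : ∑ x ∈ (box (n + 2)).filter Fr, Pw n x ≤
        (Nat.card {ω : Fin (n + 1) → ℤ × ℤ // H981.IsSAW n ω ∧ Pool.Agent.H924P.Far n ω R} : ℝ) /
          TH795.EP.c n := by
      refine le_trans (le_of_eq ?_) (far_sum n R)
      rw [hFr]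
      congr!
    refine hfs.trans ?_
    rw [div_le_iff₀ (by linarith), hR, hex]
    refine hSBn.trans ?_
    have : (H981.C n : ℝ) = TH795.EP.c n := by
      unfold H981.C
      rw [TH795.EP.card_walks]
    rw [this]
  have hnotfar : ∀ x : ℤ × ℤ, ¬ Fr x → nrm x ≤ 2 * R := by
    intro x hx
    rw [hFr] at hx
    push Not at hx
    unfold nrm
    rw [Real.sqrt_le_left (by positivity)]
    have e1 := sq_abs (x.1 : ℝ)
    have e2 := sq_abs (x.2 : ℝ)
    have e3 := abs_nonneg (x.1 : ℝ)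
    have e4 := abs_nonneg (x.2 : ℝ)
    nlinarith [hx.1, hx.2]
  have hB1 : ∑ x ∈ (box (n + 2)).filter (fun x => κ * n < nrm x), Pw n x ≤ ex := by
    refine le_trans ?_ hfar
    apply Finset.sum_le_sum_of_subset_of_nonneg
    · intro x hx
      rw [Finset.mem_filter] at hx ⊢
      refine ⟨hx.1, ?_⟩
      by_contra hcon
      have := hnotfar x hcon
      linarith [hx.2]
    · intro x _ _
      exact Pw_nonneg n x
  -- sizes
  obtain ⟨g, hg⟩ : ∃ g, g = Real.log n ^ (c / 4) := ⟨_, rfl⟩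
  have hg0 : 0 < g := by rw [hg]; positivity
  have hg4 : Real.log n ^ c = g ^ 4 := by
    rw [hg, ← Real.rpow_natCast, ← Real.rpow_mul hL0.le]
    congr 1
    push_cast
    ring
  have hg1 : 26 * K + 1 ≤ g := by rw [hg]; exact e3
  have hg1' : 1 ≤ g := by linarith
  have hlog3 : Real.log (2 + n) ^ 3 ≤ n / g ^ 4 := by
    rw [← hg4, le_div_iff₀ hLc]
    have h1 : Real.log (2 + n) ≤ 2 * Real.log n := by
      calc Real.log (2 + n) ≤ Real.log ((n : ℝ) ^ 2) := by
            apply Real.log_le_log (by linarith)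
            nlinarith
        _ = _ := by rw [Real.log_pow]; push_cast; ring
    have h2 : 0 ≤ Real.log (2 + n) := Real.log_nonneg (by linarith)
    calc Real.log (2 + n) ^ 3 * Real.log n ^ c ≤ (2 * Real.log n) ^ 3 * Real.log n ^ c := by gcongr
      _ = 8 * (Real.log n ^ (3 : ℝ) * Real.log n ^ c) := by
          rw [mul_pow]; norm_cast; ring
      _ = 8 * Real.log n ^ (3 + c) := by rw [← Real.rpow_add hL0]
      _ ≤ n := e4
  have hs1 : ∀ x : ℤ × ℤ, x ≠ 0 → nrm x ≤ κ * n → Real.sqrt (EE' n (nrm x) / n) ≤ 10 := by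
    intro x hx0 hx
    have h1 : nrm x ≤ n := by nlinarith
    have h2 := EE_le (one_le_nrm hx0) h1
    have h3 : (n : ℝ) / g ^ 4 ≤ n := div_le_self hn0.le (one_le_pow₀ hg1')
    rw [Real.sqrt_le_left (by norm_num), div_le_iff₀ hn0]
    linarith
  have hs2 : ∀ x : ℤ × ℤ, x ≠ 0 → nrm x ≤ κ * n → ¬ Fr x →
      Real.sqrt (EE' n (nrm x) / n) ≤ 13 / g ^ 2 := by
    intro x hx0 hx hf
    have h1 : nrm x ≤ n := by nlinarith
    have h2 := EE_le (one_le_nrm hx0) h1
    have h3 := hnotfar x hf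
    have hRg : R = n / g ^ 4 := by rw [hR, hg4]
    rw [Real.sqrt_le_left (by positivity), div_le_iff₀ hn0, div_pow]
    calc EE' n (nrm x) ≤ n / g ^ 4 + 81 * (2 * (n / g ^ 4)) := by
          rw [← hRg]
          rw [← hRg] at hlog3
          linarith
      _ = 163 * n / g ^ 4 := by ring
      _ ≤ 13 ^ 2 * n / g ^ 4 := by gcongr; norm_num
      _ = 13 ^ 2 / (g ^ 2) ^ 2 * n := by rw [← pow_mul]; ring
  have hB2 : ∑ x ∈ (box (n + 2)).filter (fun x => x ≠ 0 ∧ nrm x ≤ κ * n),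
        Real.sqrt (EE' n (nrm x) / n) * Pw n x ≤ 13 / g ^ 2 + 10 * ex := by
    rw [← Finset.sum_filter_add_sum_filter_not _ Fr]
    rw [Finset.filter_filter, Finset.filter_filter]
    have k1 : ∑ x ∈ (box (n + 2)).filter (fun x => (x ≠ 0 ∧ nrm x ≤ κ * n) ∧ Fr x),
        Real.sqrt (EE' n (nrm x) / n) * Pw n x ≤ 10 * ex := by
      calc ∑ x ∈ (box (n + 2)).filter (fun x => (x ≠ 0 ∧ nrm x ≤ κ * n) ∧ Fr x),
            Real.sqrt (EE' n (nrm x) / n) * Pw n x
          ≤ ∑ x ∈ (box (n + 2)).filter (fun x => (x ≠ 0 ∧ nrm x ≤ κ * n) ∧ Fr x), 10 * Pw n x := by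
            refine Finset.sum_le_sum (fun x hx => ?_)
            obtain ⟨-, ⟨h1, h2⟩, -⟩ := Finset.mem_filter.1 hx
            exact mul_le_mul_of_nonneg_right (hs1 x h1 h2) (Pw_nonneg n x)
        _ ≤ ∑ x ∈ (box (n + 2)).filter Fr, 10 * Pw n x := by
            apply Finset.sum_le_sum_of_subset_of_nonneg
            · intro x hx
              rw [Finset.mem_filter] at hx ⊢
              exact ⟨hx.1, hx.2.2⟩
            · intro x _ _
              have := Pw_nonneg n x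
              positivity
        _ = 10 * ∑ x ∈ (box (n + 2)).filter Fr, Pw n x := by rw [Finset.mul_sum]
        _ ≤ _ := by gcongr
    have k2 : ∑ x ∈ (box (n + 2)).filter (fun x => (x ≠ 0 ∧ nrm x ≤ κ * n) ∧ ¬ Fr x),
        Real.sqrt (EE' n (nrm x) / n) * Pw n x ≤ 13 / g ^ 2 := by
      calc ∑ x ∈ (box (n + 2)).filter (fun x => (x ≠ 0 ∧ nrm x ≤ κ * n) ∧ ¬ Fr x),
            Real.sqrt (EE' n (nrm x) / n) * Pw n x
          ≤ ∑ x ∈ (box (n + 2)).filter (fun x => (x ≠ 0 ∧ nrm x ≤ κ * n) ∧ ¬ Fr x),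
            13 / g ^ 2 * Pw n x := by
            refine Finset.sum_le_sum (fun x hx => ?_)
            obtain ⟨-, ⟨h1, h2⟩, h3⟩ := Finset.mem_filter.1 hx
            exact mul_le_mul_of_nonneg_right (hs2 x h1 h2 h3) (Pw_nonneg n x)
        _ ≤ ∑ x ∈ box (n + 2), 13 / g ^ 2 * Pw n x := by
            apply Finset.sum_le_sum_of_subset_of_nonneg (Finset.filter_subset _ _)
            intro x _ _
            have := Pw_nonneg n x
            positivity
        _ = 13 / g ^ 2 := by rw [← Finset.mul_sum, sum_Pw (by omega), mul_one]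
    linarith
  have h1 := h n (by omega)
  have hexg : (10 * K + 2) * ex ≤ 1 / (2 * g) := by
    rw [le_div_iff₀ (by positivity)]
    have h2 : g ≤ Real.sqrt n ^ (c / 4) := by
      rw [hg]
      exact Real.rpow_le_rpow hL0.le e5 (by positivity)
    calc (10 * K + 2) * ex * (2 * g) = 2 * ((10 * K + 2) * (g * ex)) := by ring
      _ ≤ 2 * ((10 * K + 2) * (Real.sqrt n ^ (c / 4) * ex)) := by gcongr
      _ ≤ 2 * (1 / 2) := by rw [hex]; gcongr
      _ = 1 := by norm_num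
  have hKg : K * (13 / g ^ 2) ≤ 1 / (2 * g) := by
    rw [le_div_iff₀ (by positivity)]
    calc K * (13 / g ^ 2) * (2 * g) = 26 * K / g := by field_simp; ring
      _ ≤ 1 := by rw [div_le_one hg0]; linarith
  rw [← hg]
  calc ∑ x ∈ box (n + 2), |Pw (n + 2) x - Pw n x|
      ≤ K * (13 / g ^ 2 + 10 * ex) + 2 * ex := by
        refine h1.trans ?_
        have := mul_le_mul_of_nonneg_left hB2 hK
        linarith
    _ = K * (13 / g ^ 2) + (10 * K + 2) * ex := by ring
    _ ≤ 1 / (2 * g) + 1 / (2 * g) := by linarith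
    _ = 1 / g := by field_simp; ring

end Pool.Agent.TH262.RX
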